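import Pool.Agent.H39.QF.AsyZ
import Pool.Agent.H40.QL.Deg
import Pool.Agent.H40.QL.Rtio
import Pool.Agent.H39.UN.RhoA

/-!
Module BALLS (P186, QF). With high probability there are at most `n^(1/2 - ε/2)` darts (all darts) at distance at most
`(1/2 - ε) D log n + 2`.

Proof. `deg_markov` (helper40, QL/Deg) with `M = 0`, `S = ⌊n^(1/2 - ε/2)⌋₊ - 1` or so (`S ≥ 1`):
`#(...) * S * ((6n+6)(6n+3)) ≤ 2 Σ_{r ≤ R+1} #Pr (fp f) (v n + 1) r 0`; `asyZ` for `n + 1`, the sequence `v' m = v (m - 1) + 1`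
(`v' m / m → 6 dl h`, parity), the type `Fin (6 n) ⊕ Fin 6`, `fp f` (`TF`, QL/DigA), `κ = 1/2 - ε`, `δ = ε/8`:
`≤ 2 #TS (fp f) (v n + 1) (n+1)^(3/2 - ε + ε/8)`, `rtio`: `#TS (fp f) (v n + 1) ≤ C n^2 #TS f (v n)`. So
`#(...) ≤ C' #TS n^(3/2 - 7ε/8) / n^(1/2 - ε/2) = C' #TS n^(1 - 3ε/8)`; `η = ε/4`.
-/

set_option autoImplicit false

namespace QF39

open Equiv HG39 QD39 Filter Topology

/-- the numbers -/
private theorem balls_num {ε C x N S A T Z : ℝ} (hε : 0 < ε) (hε2 : ε < 1 / 2) (hx : 1 ≤ x)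
    (hT : 0 ≤ T) (hN : 0 ≤ N) (hC : 0 < C)
    (hS : x ^ (1 / 2 - ε / 2) / 2 ≤ S) (h1 : N * S * A ≤ 2 * Z) (hA : 36 * x ^ 2 ≤ A)
    (hZ : Z ≤ C * x ^ 2 * T * (2 * x) ^ (3 / 2 - 7 * ε / 8)) (hCx : C ≤ x ^ (ε / 8)) :
    N ≤ x ^ (1 - ε / 4) * T := by
  have hx0 : 0 < x := by linarith
  have h2 : (2 * x) ^ (3 / 2 - 7 * ε / 8) ≤ 4 * x ^ (3 / 2 - 7 * ε / 8) := by
    rw [Real.mul_rpow (by norm_num) hx0.le]
    refine mul_le_mul_of_nonneg_right ?_ (Real.rpow_nonneg hx0.le _)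
    calc (2 : ℝ) ^ (3 / 2 - 7 * ε / 8) ≤ 2 ^ (2 : ℝ) :=
          Real.rpow_le_rpow_of_exponent_le (by norm_num) (by linarith)
      _ = 4 := by norm_num
  have hb0 : 0 < x ^ (1 / 2 - ε / 2) := Real.rpow_pos_of_pos hx0 _
  have hS0 : 0 ≤ S := by linarith
  have h3 : N * (x ^ (1 / 2 - ε / 2) / 2) * (36 * x ^ 2) ≤
      2 * (C * x ^ 2 * T * (4 * x ^ (3 / 2 - 7 * ε / 8))) := by
    calc N * (x ^ (1 / 2 - ε / 2) / 2) * (36 * x ^ 2) ≤ N * S * A := by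
          refine mul_le_mul (mul_le_mul_of_nonneg_left hS hN) hA (by positivity) (by positivity)
      _ ≤ 2 * Z := h1
      _ ≤ 2 * (C * x ^ 2 * T * (2 * x) ^ (3 / 2 - 7 * ε / 8)) := by linarith
      _ ≤ _ := by
          refine mul_le_mul_of_nonneg_left (mul_le_mul_of_nonneg_left h2 (by positivity))
            (by norm_num)
  have h4 : N * x ^ (1 / 2 - ε / 2) ≤ C * T * x ^ (3 / 2 - 7 * ε / 8) := by
    have hx2 : 0 < 18 * x ^ 2 := by positivity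
    have h5 : 18 * x ^ 2 * (N * x ^ (1 / 2 - ε / 2)) ≤
        18 * x ^ 2 * (C * T * x ^ (3 / 2 - 7 * ε / 8)) := by
      have h6 : 0 ≤ x ^ 2 * (C * T * x ^ (3 / 2 - 7 * ε / 8)) := by
        have := Real.rpow_nonneg hx0.le (3 / 2 - 7 * ε / 8)
        positivity
      nlinarith [h3, h6]
    exact le_of_mul_le_mul_left h5 hx2
  have h5 : C * T * x ^ (3 / 2 - 7 * ε / 8) ≤ (x ^ (1 - ε / 4) * T) * x ^ (1 / 2 - ε / 2) := by
    have h6 : x ^ (ε / 8) * x ^ (3 / 2 - 7 * ε / 8) = x ^ (1 - ε / 4) * x ^ (1 / 2 - ε / 2) := by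
      rw [← Real.rpow_add hx0, ← Real.rpow_add hx0]
      congr 1
      ring
    calc C * T * x ^ (3 / 2 - 7 * ε / 8) = C * (T * x ^ (3 / 2 - 7 * ε / 8)) := by ring
      _ ≤ x ^ (ε / 8) * (T * x ^ (3 / 2 - 7 * ε / 8)) :=
          mul_le_mul_of_nonneg_right hCx (mul_nonneg hT (Real.rpow_nonneg hx0.le _))
      _ = T * (x ^ (ε / 8) * x ^ (3 / 2 - 7 * ε / 8)) := by ring
      _ = (x ^ (1 - ε / 4) * T) * x ^ (1 / 2 - ε / 2) := by rw [h6]; ring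
  exact le_of_mul_le_mul_right (h4.trans h5) hb0

theorem ballS {h : ℝ} (h0 : 0 < h) (h1 : h < 1 / 4) {v : ℕ → ℕ}
    (hv : Tendsto (fun n => (v n : ℝ) / n) atTop (𝓝 (6 * UN39.dl h)))
    (hp : ∀ᶠ n in atTop, v n % 2 = n % 2) {ε : ℝ} (hε : 0 < ε) (hε2 : ε < 1 / 2) :
    ∃ η : ℝ, 0 < η ∧ ∃ n0 : ℕ, ∀ n, n0 ≤ n → ∀ f : Perm (Fin (6 * n)), TF f → ∀ R : ℕ,
      (R : ℝ) ≤ (1 / 2 - ε) * DD h * Real.log n + 2 →
      (({q : Perm (Fin (6 * n)) × Fin (6 * n) | q.1 ∈ TS f (v n) ∧ rep f q.1 q.2 = q.2 ∧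
        (n : ℝ) ^ (1 / 2 - ε / 2) ≤
          ((Finset.univ.filter fun d => dst f q.1 q.2 d ≤ R).card : ℝ)}.ncard : ℕ) : ℝ) ≤
        (n : ℝ) ^ (1 - η) * (TS f (v n)).ncard := by
  classical
  obtain ⟨ω0, ω1⟩ := UN39.dl_range h0 h1
  obtain ⟨C, hC, n1, hn1, hr⟩ := QL40.rtio ω0 ω1 hv hp
  have hDD : 0 < DD h := by
    obtain ⟨m0, m1, _⟩ := mh_prop h h0 h1
    unfold DD
    have := Real.log_neg m0 m1
    exact one_div_pos.2 (by linarith)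
  -- the shifted sequence
  have hv' : Tendsto (fun m => (((fun m => v (m - 1) + 1) m : ℕ) : ℝ) / m) atTop
      (𝓝 (6 * UN39.dl h)) := by
    rw [← tendsto_add_atTop_iff_nat 1]
    have e1 : (fun n : ℕ => (((fun m => v (m - 1) + 1) (n + 1) : ℕ) : ℝ) / ((n + 1 : ℕ) : ℝ)) =
        fun n : ℕ => ((v n : ℝ) / n) * ((n : ℝ) / ((n : ℝ) + 1)) +
          (if n = 0 then (v 0 : ℝ) else 0) + 1 / ((n : ℝ) + 1) := by
      funext n
      simp only [Nat.add_sub_cancel]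
      push_cast
      by_cases hn : n = 0
      · subst hn
        simp
      · have hn' : (n : ℝ) ≠ 0 := by exact_mod_cast hn
        have hn2 : (n : ℝ) + 1 ≠ 0 := by positivity
        rw [if_neg hn]
        field_simp
        ring
    rw [e1]
    have h3 : Tendsto (fun n : ℕ => (n : ℝ) / ((n : ℝ) + 1)) atTop (𝓝 1) :=
      tendsto_natCast_div_add_atTop 1
    have h4 : Tendsto (fun n : ℕ => 1 / ((n : ℝ) + 1)) atTop (𝓝 0) :=
      tendsto_one_div_add_atTop_nhds_zero_nat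
    have h5 : Tendsto (fun n : ℕ => (if n = 0 then (v 0 : ℝ) else 0)) atTop (𝓝 0) := by
      refine tendsto_const_nhds.congr' ?_
      filter_upwards [eventually_ge_atTop 1] with n hn
      rw [if_neg (by omega)]
    have h6 := ((hv.mul h3).add h5).add h4
    simpa using h6
  have hp' : ∀ᶠ m in atTop, (fun m => v (m - 1) + 1) m % 2 = m % 2 := by
    obtain ⟨N, hN⟩ := eventually_atTop.1 hp
    refine eventually_atTop.2 ⟨N + 1, fun m hm => ?_⟩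
    have h3 := hN (m - 1) (by omega)
    have h4 : (fun m => v (m - 1) + 1) m = v (m - 1) + 1 := rfl
    rw [h4]
    omega
  obtain ⟨n2, ha⟩ := asyZ h0 h1 hv' hp' (κ := 1 / 2 - ε) (δ := ε / 8) (by linarith) (by linarith)
  -- large n
  have hlarge : ∀ᶠ n : ℕ in atTop, C ≤ (n : ℝ) ^ (ε / 8) ∧ 2 ≤ (n : ℝ) ^ (1 / 2 - ε / 2) := by
    have t1 : Tendsto (fun n : ℕ => (n : ℝ) ^ (ε / 8)) atTop atTop :=
      (tendsto_rpow_atTop (by linarith)).comp tendsto_natCast_atTop_atTop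
    have t2 : Tendsto (fun n : ℕ => (n : ℝ) ^ (1 / 2 - ε / 2)) atTop atTop :=
      (tendsto_rpow_atTop (by linarith)).comp tendsto_natCast_atTop_atTop
    exact (t1.eventually_ge_atTop C).and (t2.eventually_ge_atTop 2)
  obtain ⟨n3, hn3⟩ := eventually_atTop.1 hlarge
  refine ⟨ε / 4, by linarith, n1 + n2 + n3 + 1, fun n hn f hf R hR => ?_⟩
  obtain ⟨hCn, h2n⟩ := hn3 n (by omega)
  have hn0 : (1 : ℝ) ≤ n := by exact_mod_cast (by omega : 1 ≤ n)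
  set x : ℝ := (n : ℝ) with hx
  set S : ℕ := ⌈x ^ (1 / 2 - ε / 2)⌉₊ - 1 with hSd
  have hceil : 2 ≤ ⌈x ^ (1 / 2 - ε / 2)⌉₊ := by
    have h3 := Nat.le_ceil (x ^ (1 / 2 - ε / 2))
    have h4 : (2 : ℝ) ≤ (⌈x ^ (1 / 2 - ε / 2)⌉₊ : ℝ) := h2n.trans h3
    exact_mod_cast h4
  have hSr : (S : ℝ) = (⌈x ^ (1 / 2 - ε / 2)⌉₊ : ℝ) - 1 := by
    rw [hSd, Nat.cast_sub (by omega)]
    norm_num
  have hS1 : x ^ (1 / 2 - ε / 2) / 2 ≤ S := by
    have h3 := Nat.le_ceil (x ^ (1 / 2 - ε / 2))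
    rw [hSr]
    linarith
  have hdm := QL40.deg_markov hf (v n) R 0 S
  have hsub : {q : Perm (Fin (6 * n)) × Fin (6 * n) | q.1 ∈ TS f (v n) ∧ rep f q.1 q.2 = q.2 ∧
        x ^ (1 / 2 - ε / 2) ≤
          ((Finset.univ.filter fun d => dst f q.1 q.2 d ≤ R).card : ℝ)} ⊆
      {p : Perm (Fin (6 * n)) × Fin (6 * n) | p.1 ∈ TS f (v n) ∧ 0 ≤ lfc f p.1 ∧
        rep f p.1 p.2 = p.2 ∧
        S < (Finset.univ.filter fun d => QL40.dlab f p.1 p.2 d ≤ (R : ℤ)).card} := by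
    rintro q ⟨q1, q2, q3⟩
    refine ⟨q1, Nat.zero_le _, q2, ?_⟩
    have h3 : (Finset.univ.filter fun d => QL40.dlab f q.1 q.2 d ≤ (R : ℤ)) =
        (Finset.univ.filter fun d => dst f q.1 q.2 d ≤ R) := by
      ext d
      unfold QL40.dlab
      rw [Finset.mem_filter, Finset.mem_filter, Nat.cast_le]
    rw [h3]
    have h4 : ⌈x ^ (1 / 2 - ε / 2)⌉₊ ≤ (Finset.univ.filter fun d => dst f q.1 q.2 d ≤ R).card :=
      Nat.ceil_le.2 q3
    omega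
  have hNle := Set.ncard_le_ncard hsub (Set.toFinite _)
  set N := {q : Perm (Fin (6 * n)) × Fin (6 * n) | q.1 ∈ TS f (v n) ∧ rep f q.1 q.2 = q.2 ∧
        x ^ (1 / 2 - ε / 2) ≤
          ((Finset.univ.filter fun d => dst f q.1 q.2 d ≤ R).card : ℝ)}.ncard with hNd
  have hcardD : Fintype.card (Fin (6 * n) ⊕ Fin 6) = 6 * (n + 1) := by
    rw [Fintype.card_sum, Fintype.card_fin, Fintype.card_fin]
    ring
  have hfp := QL40.fp_tf hf
  have hR' : ((R + 1 : ℕ) : ℝ) ≤ (1 / 2 - ε) * DD h * Real.log ((n + 1 : ℕ) : ℝ) + 3 := by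
    have h3 : Real.log n ≤ Real.log ((n + 1 : ℕ) : ℝ) := by
      refine Real.log_le_log (by linarith) ?_
      push_cast
      linarith
    have h4 : 0 ≤ (1 / 2 - ε) * DD h := mul_nonneg (by linarith) hDD.le
    have h5 := mul_le_mul_of_nonneg_left h3 h4
    push_cast at h5 ⊢
    linarith
  have ha' := ha (n + 1) (by omega) (Fin (6 * n) ⊕ Fin 6) hcardD (QL40.fp f) hfp (R + 1) hR'
  simp only [Nat.add_sub_cancel] at ha'
  have hr' := (hr n (by omega) (Fin (6 * n)) (Fin (6 * n) ⊕ Fin 6) (Fintype.card_fin _) hcardD f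
    (QL40.fp f) hf hfp).1
  rw [Fintype.card_fin] at hdm
  -- assemble
  set T : ℝ := ((TS f (v n)).ncard : ℝ) with hT
  set Z : ℝ := ∑ r ∈ Finset.range (R + 2), ((Pr (QL40.fp f) (v n + 1) r 0).ncard : ℝ) with hZ
  refine balls_num (C := C) (S := (S : ℝ)) (A := ((6 * n + 6) * (6 * n + 3) : ℝ)) (Z := Z) hε hε2
    hn0 (Nat.cast_nonneg _) (Nat.cast_nonneg _) hC hS1 ?_ ?_ ?_ hCn
  · have h3 : N * S * ((6 * n + 6) * (6 * n + 3)) ≤
        2 * ∑ r ∈ Finset.range (R + 2), (Pr (QL40.fp f) (v n + 1) r 0).ncard :=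
      le_trans (Nat.mul_le_mul_right _ (Nat.mul_le_mul_right _ hNle)) hdm
    have h4 : ((N * S * ((6 * n + 6) * (6 * n + 3)) : ℕ) : ℝ) ≤
        ((2 * ∑ r ∈ Finset.range (R + 2), (Pr (QL40.fp f) (v n + 1) r 0).ncard : ℕ) : ℝ) := by
      exact_mod_cast h3
    push_cast at h4
    exact h4
  · nlinarith
  · have h3 : Z ≤ ((TS (QL40.fp f) (v n + 1)).ncard : ℝ) *
        ((n + 1 : ℕ) : ℝ) ^ (1 + (1 / 2 - ε) + ε / 8) := ha'
    have h4 : ((n + 1 : ℕ) : ℝ) ^ (1 + (1 / 2 - ε) + ε / 8) ≤ (2 * x) ^ (3 / 2 - 7 * ε / 8) := by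
      have e1 : 1 + (1 / 2 - ε) + ε / 8 = 3 / 2 - 7 * ε / 8 := by ring
      rw [e1]
      refine Real.rpow_le_rpow (by positivity) ?_ (by linarith)
      push_cast
      linarith
    have h5 : ((TS (QL40.fp f) (v n + 1)).ncard : ℝ) ≤ C * x ^ 2 * T := hr'
    have h6 : 0 ≤ C * x ^ 2 * T := by positivity
    exact h3.trans (mul_le_mul h5 h4 (Real.rpow_nonneg (Nat.cast_nonneg _) _) h6)

end QF39
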