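import Pool.Agent.H39.QF.Fm

/-!
Module ASYZ (P186, QF). The first moment of the number of vertices in a ball, without condition on the leaves.

Proof. For `r ≥ 1`: `#Pr f v r 0 ≤ #Zd f v r`: `(α, x, y) ↦ (α, x, δ)`, `δ` a descending dart of the vertex of `y` (`Lab.dsc` for `dst_lab`);
injective because `y = rep f α δ`. For `r = 0`: `x = y` (`dst = 0`: the same vertex, both representatives), so `#Pr f v 0 0 ≤ #TS 6 n`.
`fm` with `B = (κ + 1) * DD h` and accuracy `δ/2`: `#Zd f (v n) r ≤ n^(1+δ/2) mh^(-r) #TS`, `mh^(-r) = exp (r / DD h) ≤ mh^(-3) n^κ` for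
`r ≤ κ DD h log n + 3`. Sum over at most `κ DD h log n + 4` values of `r`; `polylog * n^(1 + κ + δ/2) ≤ n^(1 + κ + δ)` for large `n`.
-/

set_option autoImplicit false

namespace QF39

open Equiv HG39 Filter Topology

private theorem az_big {δ a : ℝ} (hδ : 0 < δ) (ha : 0 ≤ a) :
    ∃ n0 : ℕ, ∀ n : ℕ, n0 ≤ n → a * Real.log n ≤ (n : ℝ) ^ δ := by
  have h1 : Tendsto (fun n : ℕ => (n : ℝ) ^ (δ / 2)) atTop atTop :=
    (tendsto_rpow_atTop (by positivity)).comp tendsto_natCast_atTop_atTop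
  obtain ⟨n0, h2⟩ := eventually_atTop.1 (h1.eventually_ge_atTop (a * (2 / δ)))
  refine ⟨max n0 1, fun n hn => ?_⟩
  have hn1 : 1 ≤ n := (le_max_right _ _).trans hn
  have hn1' : (1 : ℝ) ≤ n := by exact_mod_cast hn1
  have h3 := h2 n ((le_max_left _ _).trans hn)
  have h4 : Real.log n ≤ (2 / δ) * (n : ℝ) ^ (δ / 2) := by
    have := Real.log_le_rpow_div (Nat.cast_nonneg n : (0 : ℝ) ≤ n) (by positivity : 0 < δ / 2)
    refine this.trans (le_of_eq ?_)
    field_simp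
  have h7 : (n : ℝ) ^ (δ / 2) * (n : ℝ) ^ (δ / 2) = (n : ℝ) ^ δ := by
    rw [← Real.rpow_add (by linarith)]
    congr 1
    ring
  calc a * Real.log n ≤ a * ((2 / δ) * (n : ℝ) ^ (δ / 2)) := by gcongr
    _ = (a * (2 / δ)) * (n : ℝ) ^ (δ / 2) := by ring
    _ ≤ (n : ℝ) ^ (δ / 2) * (n : ℝ) ^ (δ / 2) := by gcongr
    _ = _ := h7

private theorem az_zero {D : Type} [Fintype D] [DecidableEq D] {f : Perm D} (hf : TF f) (v M : ℕ) :
    (Pr f v 0 M).ncard ≤ (TS f v).ncard * Fintype.card D := by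
  classical
  have h1 : Pr f v 0 M ⊆
      (fun p : Perm D × D => (p.1, p.2, p.2)) '' ((TS f v) ×ˢ (Set.univ : Set D)) := by
    rintro ⟨α, a, b⟩ ⟨h1, -, h2, h3, h4⟩
    simp only at h1 h2 h3 h4
    have : Nonempty D := ⟨a⟩
    have h5 := gr_conn hf h1.1
    have h6 : Quotient.mk (Equiv.Perm.SameCycle.setoid (f * α)) a =
        Quotient.mk (Equiv.Perm.SameCycle.setoid (f * α)) b := (h5.dist_eq_zero_iff).1 h4
    have h7 : a = b := by
      rw [← h2, ← h3]
      unfold rep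
      rw [h6]
    refine ⟨(α, a), ⟨h1, trivial⟩, ?_⟩
    simp only [h7]
  refine (Set.ncard_le_ncard h1 (Set.toFinite _)).trans
    ((Set.ncard_image_le (Set.toFinite _)).trans ?_)
  rw [Set.ncard_prod, Set.ncard_univ, Nat.card_eq_fintype_card]

private theorem az_pos {D : Type} [Fintype D] [DecidableEq D] {f : Perm D} (hf : TF f) (v r : ℕ)
    (hr : 1 ≤ r) : (Pr f v r 0).ncard ≤ (Zd f v r).ncard := by
  classical
  have h1 : Pr f v r 0 ⊆ (fun p : Perm D × D × D => (p.1, p.2.1, rep f p.1 p.2.2)) '' Zd f v r := by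
    rintro ⟨α, a, b⟩ ⟨h1, -, h2, h3, h4⟩
    simp only at h1 h2 h3 h4
    have hl := dst_lab hf h1.1 a
    have hnf : ∀ d, α d ≠ d := by
      intro d hd
      have := (h1.1.leg d).1 hd
      simp [tri] at this
    obtain ⟨δ, g1, -, g3⟩ := hl.dsc b (hnf b) (by rw [h4]; exact_mod_cast hr)
    have g4 : Quotient.mk (Equiv.Perm.SameCycle.setoid (f * α)) b =
        Quotient.mk (Equiv.Perm.SameCycle.setoid (f * α)) δ := Quotient.sound g1
    have g5 : dst f α a δ = r := by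
      rw [← h4]
      unfold dst
      rw [g4]
    refine ⟨(α, a, δ), ⟨h1, h2, g5, ?_⟩, ?_⟩
    · simp only [Desc] at g3
      rw [g5] at g3
      have : ((dst f α a (f δ) : ℕ) : ℤ) + 1 = r := by linarith
      exact_mod_cast this
    · simp only [Prod.mk.injEq, true_and]
      rw [← h3]
      unfold rep
      rw [g4]
  exact (Set.ncard_le_ncard h1 (Set.toFinite _)).trans (Set.ncard_image_le (Set.toFinite _))

theorem asyZ {h : ℝ} (h0 : 0 < h) (h1 : h < 1 / 4) {v : ℕ → ℕ}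
    (hv : Tendsto (fun n => (v n : ℝ) / n) atTop (𝓝 (6 * UN39.dl h)))
    (hp : ∀ᶠ n in atTop, v n % 2 = n % 2) {κ δ : ℝ} (k0 : 0 < κ) (hδ : 0 < δ) :
    ∃ n0 : ℕ, ∀ n, n0 ≤ n → ∀ (D : Type) [Fintype D] [DecidableEq D], Fintype.card D = 6 * n →
      ∀ f : Perm D, TF f → ∀ R : ℕ, (R : ℝ) ≤ κ * DD h * Real.log n + 3 →
      (∑ r ∈ Finset.range (R + 1), ((Pr f (v n) r 0).ncard : ℝ)) ≤
        (TS f (v n)).ncard * (n : ℝ) ^ (1 + κ + δ) := by
  obtain ⟨hm0', hm1', -⟩ := mh_prop h h0 h1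
  obtain ⟨m, hmd⟩ : ∃ m, m = mh h := ⟨_, rfl⟩
  have hm0 : 0 < m := by rw [hmd]; exact hm0'
  have hm1 : m < 1 := by rw [hmd]; exact hm1'
  have hL : Real.log m < 0 := Real.log_neg hm0 hm1
  obtain ⟨E, hE⟩ : ∃ E, E = DD h := ⟨_, rfl⟩
  have hDD : E = 1 / (-Real.log m) := by rw [hE, hmd]; rfl
  have hD0 : 0 < E := by
    rw [hDD]
    exact div_pos one_pos (by linarith)
  have hDL : E * Real.log m = -1 := by
    rw [hDD, one_div, inv_neg, neg_mul, inv_mul_cancel₀ hL.ne]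
  obtain ⟨n1, hn1⟩ := fm h0 h1 hv hp (by positivity : 0 < δ / 2)
    (by positivity : 0 < (κ + 1) * E)
  obtain ⟨n2, hn2⟩ := az_big (by positivity : 0 < δ / 2)
    (by positivity : 0 ≤ (κ + 3) * E / m ^ 3)
  obtain ⟨n3, hn3⟩ := eventually_atTop.1 ((Real.tendsto_log_atTop.comp
    tendsto_natCast_atTop_atTop).eventually_ge_atTop (3 / E))
  refine ⟨max (max n1 n2) (max n3 1), fun n hn D _ _ hD f hf R hR => ?_⟩
  have hnn1 : n1 ≤ n := (le_max_left _ _).trans ((le_max_left _ _).trans hn)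
  have hnn2 : n2 ≤ n := (le_max_right _ _).trans ((le_max_left _ _).trans hn)
  have hnn3 : n3 ≤ n := (le_max_left _ _).trans ((le_max_right _ _).trans hn)
  have hnn : 1 ≤ n := (le_max_right _ _).trans ((le_max_right _ _).trans hn)
  have hnR : (1 : ℝ) ≤ n := by exact_mod_cast hnn
  have hnp : (0 : ℝ) < n := by linarith
  rw [← hE] at hR
  have hlog : 3 ≤ E * Real.log n := by
    have := hn3 n hnn3
    simp only [Function.comp_apply] at this
    rwa [div_le_iff₀ hD0, mul_comm] at this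
  have hRB : (R : ℝ) ≤ (κ + 1) * E * Real.log n := by
    refine hR.trans ?_
    have e1 : (κ + 1) * E * Real.log n = κ * E * Real.log n + E * Real.log n := by ring
    linarith
  obtain ⟨T, hT⟩ : ∃ T : ℝ, T = ((TS f (v n)).ncard : ℝ) := ⟨_, rfl⟩
  have hT0 : 0 ≤ T := by rw [hT]; exact Nat.cast_nonneg _
  rw [← hT]
  have hn12 : (1 : ℝ) ≤ (n : ℝ) ^ (δ / 2) := Real.one_le_rpow hnR (by positivity)
  have hpn : (n : ℝ) ^ (1 + δ / 2) = n * (n : ℝ) ^ (δ / 2) := by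
    rw [Real.rpow_add hnp, Real.rpow_one]
  have hmR1 : m ^ R ≤ 1 := pow_le_one₀ hm0.le hm1.le
  have hsum : (∑ r ∈ Finset.range (R + 1), ((Pr f (v n) r 0).ncard : ℝ)) * m ^ R ≤
      (R + 6) * ((n : ℝ) ^ (1 + δ / 2) * T) := by
    rw [Finset.sum_range_succ', add_mul, Finset.sum_mul, add_mul]
    refine add_le_add ?_ ?_
    · have g1 : ∀ i ∈ Finset.range R, ((Pr f (v n) (i + 1) 0).ncard : ℝ) * m ^ R ≤
          (n : ℝ) ^ (1 + δ / 2) * T := by
        intro i hi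
        rw [Finset.mem_range] at hi
        have g2 := hn1 n hnn1 D hD f hf (i + 1) (by omega)
          (le_trans (by exact_mod_cast hi) hRB)
        rw [← hmd, ← hT] at g2
        refine le_trans ?_ g2
        have g3 : ((Pr f (v n) (i + 1) 0).ncard : ℝ) ≤ ((Zd f (v n) (i + 1)).ncard : ℝ) := by
          exact_mod_cast az_pos hf (v n) (i + 1) (by omega)
        exact mul_le_mul g3 (pow_le_pow_of_le_one hm0.le hm1.le (by omega)) (by positivity)
          (Nat.cast_nonneg _)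
      refine (Finset.sum_le_sum g1).trans (le_of_eq ?_)
      rw [Finset.sum_const, Finset.card_range, nsmul_eq_mul]
    · have g1 := az_zero hf (v n) 0
      rw [hD] at g1
      have g2 : ((Pr f (v n) 0 0).ncard : ℝ) ≤ T * (6 * n) := by
        rw [hT]
        exact_mod_cast g1
      have g3 : T * (6 * n) ≤ 6 * ((n : ℝ) ^ (1 + δ / 2) * T) := by
        rw [hpn]
        have : 0 ≤ (n : ℝ) * T := by positivity
        nlinarith
      calc ((Pr f (v n) 0 0).ncard : ℝ) * m ^ R ≤ ((Pr f (v n) 0 0).ncard : ℝ) * 1 :=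
            mul_le_mul_of_nonneg_left hmR1 (Nat.cast_nonneg _)
        _ = ((Pr f (v n) 0 0).ncard : ℝ) := mul_one _
        _ ≤ _ := g2.trans g3
  have hmR : (n : ℝ) ^ (-κ) * m ^ 3 ≤ m ^ R := by
    have g1 : m ^ R = Real.exp (R * Real.log m) := by
      rw [← Real.rpow_natCast m R, Real.rpow_def_of_pos hm0, mul_comm]
    have g2 : m ^ 3 = Real.exp (3 * Real.log m) := by
      rw [← Real.rpow_natCast m 3, Real.rpow_def_of_pos hm0, mul_comm]
      norm_num
    rw [g1, g2, Real.rpow_def_of_pos hnp, ← Real.exp_add, Real.exp_le_exp]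
    have g3 : (κ * E * Real.log n + 3) * Real.log m ≤ R * Real.log m :=
      mul_le_mul_of_nonpos_right hR hL.le
    refine le_trans (le_of_eq ?_) g3
    calc Real.log n * -κ + 3 * Real.log m
        = κ * Real.log n * (-1) + 3 * Real.log m := by ring
      _ = κ * Real.log n * (E * Real.log m) + 3 * Real.log m := by rw [hDL]
      _ = _ := by ring
  have hR2 : ((R : ℝ) + 6) / m ^ 3 ≤ (n : ℝ) ^ (δ / 2) := by
    refine le_trans ?_ (hn2 n hnn2)
    have e1 : (R : ℝ) + 6 ≤ (κ + 3) * E * Real.log n := by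
      have e2 : (κ + 3) * E * Real.log n = (κ + 1) * E * Real.log n + 2 * (E * Real.log n) := by
        ring
      linarith
    calc ((R : ℝ) + 6) / m ^ 3 ≤ ((κ + 3) * E * Real.log n) / m ^ 3 := by gcongr
      _ = _ := by ring
  obtain ⟨S, hS⟩ : ∃ S : ℝ, S = ∑ r ∈ Finset.range (R + 1), ((Pr f (v n) r 0).ncard : ℝ) :=
    ⟨_, rfl⟩
  have hS0 : 0 ≤ S := by
    rw [hS]
    exact Finset.sum_nonneg fun _ _ => Nat.cast_nonneg _
  rw [← hS] at hsum ⊢
  have hp2 : (n : ℝ) ^ (δ / 2) * (n : ℝ) ^ (1 + δ / 2) =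
      (n : ℝ) ^ (-κ) * (n : ℝ) ^ (1 + κ + δ) := by
    rw [← Real.rpow_add hnp, ← Real.rpow_add hnp]
    congr 1
    ring
  have hfin : (n : ℝ) ^ (-κ) * m ^ 3 * S ≤
      (n : ℝ) ^ (-κ) * m ^ 3 * (T * (n : ℝ) ^ (1 + κ + δ)) := by
    calc (n : ℝ) ^ (-κ) * m ^ 3 * S ≤ m ^ R * S := mul_le_mul_of_nonneg_right hmR hS0
      _ = S * m ^ R := mul_comm _ _
      _ ≤ (R + 6) * ((n : ℝ) ^ (1 + δ / 2) * T) := hsum
      _ = (((R : ℝ) + 6) / m ^ 3) * (m ^ 3 * ((n : ℝ) ^ (1 + δ / 2) * T)) := by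
          field_simp
      _ ≤ (n : ℝ) ^ (δ / 2) * (m ^ 3 * ((n : ℝ) ^ (1 + δ / 2) * T)) :=
          mul_le_mul_of_nonneg_right hR2 (by positivity)
      _ = (n : ℝ) ^ (δ / 2) * (n : ℝ) ^ (1 + δ / 2) * (m ^ 3 * T) := by ring
      _ = (n : ℝ) ^ (-κ) * (n : ℝ) ^ (1 + κ + δ) * (m ^ 3 * T) := by rw [hp2]
      _ = _ := by ring
  exact le_of_mul_le_mul_left hfin (by positivity)

end QF39
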