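import Pool.Agent.H39.HG.GrPerm

/-!
Module CNJ (P186, QF). Two permutations with all cycles of length three on sets of the same size are conjugate. MATHLIB ONLY.

Proof. Choose roots of the triangles: bijections `D ≃ Fin k × ZMod 3` (or `Fin 3`) with `f` = `(i, j) ↦ (i, j + 1)` (`k` = number of cycles,
`3 k = #D`), the same for `E`. Or: cycle types (`Equiv.Perm.cycleType_eq`, `isConj_iff_cycleType_eq`) after transport of `g` to `D` by any
bijection `D ≃ E`: both have cycle type `replicate (#D / 3) 3`.
-/

set_option autoImplicit false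

namespace QF39

open Equiv HG39

theorem cnj_ct {D : Type} [Fintype D] [DecidableEq D] [Nonempty D] {f : Perm D} (hf : TF f) :
    f.cycleType = Multiset.replicate (Fintype.card D / 3) 3 := by
  have h3 : f ^ 3 = 1 := by
    ext d
    rw [pow_succ, pow_succ, pow_one, Perm.mul_apply, Perm.mul_apply, hf.three]
    rfl
  have h1 : f ≠ 1 := by
    intro h
    obtain ⟨d⟩ := (inferInstance : Nonempty D)
    apply hf.nf d
    rw [h]
    rfl
  have ho : orderOf f = 3 := orderOf_eq_prime h3 h1
  obtain ⟨n, hn⟩ := Equiv.Perm.cycleType_prime_order (σ := f) (by rw [ho]; norm_num)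
  rw [ho] at hn
  have hs : f.support = Finset.univ := by
    ext d
    simp [hf.nf d]
  have hsum := f.sum_cycleType
  rw [hn, Multiset.sum_replicate, hs, Finset.card_univ, smul_eq_mul] at hsum
  rw [hn]
  congr 1
  omega

theorem cnj {D E : Type} [Fintype D] [DecidableEq D] [Fintype E] [DecidableEq E] {f : Perm D}
    {g : Perm E} (hf : TF f) (hg : TF g) (h : Fintype.card D = Fintype.card E) :
    ∃ φ : D ≃ E, ∀ d, φ (f d) = g (φ d) := by
  obtain ⟨e⟩ : Nonempty (D ≃ E) := ⟨Fintype.equivOfCardEq h⟩
  rcases isEmpty_or_nonempty D with hD | hD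
  · exact ⟨e, fun d => hD.elim d⟩
  · obtain ⟨g', hg'⟩ : ∃ g' : Perm D, ∀ d, e (g' d) = g (e d) :=
      ⟨(e.trans g).trans e.symm, fun d => by simp⟩
    have hT : TF g' := by
      constructor
      · intro d
        apply e.injective
        rw [hg', hg', hg', hg.three]
      · intro d hd
        apply hg.nf (e d)
        rw [← hg', hd]
    have h1 : f.cycleType = g'.cycleType := by rw [cnj_ct hf, cnj_ct hT]
    obtain ⟨c, hc⟩ := isConj_iff.1 (Equiv.Perm.isConj_iff_cycleType_eq.2 h1)
    refine ⟨c.trans e, fun d => ?_⟩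
    change e (c (f d)) = g (e (c d))
    rw [← hg', ← hc, Perm.mul_apply, Perm.mul_apply]
    congr 3
    exact (c.symm_apply_apply d).symm

end QF39
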