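import Pool.Agent.H39.QD.Stat
import Pool.Agent.H39.HG.MainP
import Pool.Agent.H39.HG.GraphLab

/-!
P186 (MP_bcc40c_pr, Q2), part QF: first moment of the number of descending darts of each level (sharp exponential rate).

`Zd f v r`   : triples (triangulation `α`, representative `x` of a vertex, descending dart `δ` of level `r` for the distance from `x`);
`Xd f v r j` : the same in partial triangulations with `2 j` free triangles.
-/

set_option autoImplicit false

namespace QF39

open Equiv HG39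

variable {D : Type} [Fintype D] [DecidableEq D]

/-- triangulations with a vertex `x` and a descending dart of level `r` -/
def Zd (f : Perm D) (v r : ℕ) : Set (Perm D × D × D) :=
  {c | c.1 ∈ TS f v ∧ rep f c.1 c.2.1 = c.2.1 ∧ dst f c.1 c.2.1 c.2.2 = r ∧
    dst f c.1 c.2.1 (f c.2.2) + 1 = r}

/-- partial triangulations with `2 j` free triangles, a vertex `x` and a descending dart of level `r` -/
def Xd (f : Perm D) (v r j : ℕ) : Set (Perm D × List D × D × D) :=
  {c | PT f c.1 c.2.1 ∧ c.2.1.length = 2 * j ∧ cyc (f * c.1) = v + j ∧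
    rep f c.1 c.2.2.1 = c.2.2.1 ∧
    ∃ ℓ : D → ℤ, Lab f c.1 ℓ ∧ c.1 c.2.2.1 ≠ c.2.2.1 ∧ ℓ c.2.2.1 = 0 ∧
      c.1 c.2.2.2 ≠ c.2.2.2 ∧ ℓ c.2.2.2 = r ∧ Desc f ℓ c.2.2.2}

end QF39
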