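import Pool.Agent.H39.QF.Defs

/-!
Module EXT (P186, QF). Extension of a triangulation by free triangles.

Proof. `α' = α.extendDomain φ` (`Equiv.Perm.extendDomain`: `α' (φ d) = φ (α d)`, `α' d = d` on `tri g bs`). `PT g α' bs`: the legs are
exactly the darts of `tri g bs` (`α d ≠ d` on `D`); connectedness from `PT f α []` (transport of `P` along `φ`; there is a non-leg).
`g * α'` maps `φ d` to `φ (f (α d))` and is `g` on `tri g bs`: so `(g * α').SameCycle (φ a) (φ b) ↔ (f * α).SameCycle a b`, and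
`cyc (g * α') = cyc (f * α) + 2 K` (the cycles of `g` on `tri g bs` are the `2 K` triangles), that is `(v + K) + K`.
Labels: `ℓ' (φ d) = dst f α x d`, `ℓ' = 0` on `tri g bs`; `Lab g α' ℓ'` from `dst_lab` (HG/GraphLab). The map
`(α, x, δ) ↦ (α', rep g α' (φ x), φ δ)` is injective (`x`: `SameCycle (φ x) (φ y)` gives `SameCycle x y`, and `x = rep f α x`).
-/

set_option autoImplicit false

namespace QF39

open Equiv HG39

section

variable {D E : Type} [Fintype D] [DecidableEq D] [Fintype E] [DecidableEq E]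

/-- the extension -/
private def ex_a {g : Perm E} {bs : List E} (φ : D ≃ {d : E // d ∉ tri g bs}) (α : Perm D) :
    Perm E := α.extendDomain φ

omit [Fintype D] [DecidableEq D] [Fintype E] in
private theorem ex_img {g : Perm E} {bs : List E} (φ : D ≃ {d : E // d ∉ tri g bs}) (α : Perm D)
    (d : D) : ex_a φ α (φ d) = φ (α d) :=
  Equiv.Perm.extendDomain_apply_image α φ d

omit [Fintype D] [DecidableEq D] [Fintype E] in
private theorem ex_tri {g : Perm E} {bs : List E} (φ : D ≃ {d : E // d ∉ tri g bs}) (α : Perm D)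
    (e : E) (he : e ∈ tri g bs) : ex_a φ α e = e :=
  Equiv.Perm.extendDomain_apply_not_subtype α φ (fun h => h he)

omit [Fintype D] [DecidableEq D] [Fintype E] [DecidableEq E] in
private theorem ex_cases {g : Perm E} {bs : List E} (φ : D ≃ {d : E // d ∉ tri g bs}) (e : E) :
    e ∈ tri g bs ∨ ∃ d : D, (φ d : E) = e := by
  by_cases h : e ∈ tri g bs
  · exact Or.inl h
  · exact Or.inr ⟨φ.symm ⟨e, h⟩, by rw [Equiv.apply_symm_apply]⟩

omit [Fintype D] [DecidableEq D] [Fintype E] [DecidableEq E] in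
private theorem ex_inj {g : Perm E} {bs : List E} (φ : D ≃ {d : E // d ∉ tri g bs}) (a b : D)
    (h : (φ a : E) = φ b) : a = b := φ.injective (Subtype.ext h)

omit [Fintype D] [DecidableEq D] [Fintype E] in
private theorem ex_pow {f : Perm D} {g : Perm E} {bs : List E} (φ : D ≃ {d : E // d ∉ tri g bs})
    (hφ : ∀ d, ((φ (f d)) : E) = g (φ d)) (α : Perm D) (a : D) (n : ℕ) :
    ((g * ex_a φ α) ^ n) (φ a) = φ (((f * α) ^ n) a) := by
  induction n with
  | zero => rfl
  | succ n ih =>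
    rw [pow_succ', Equiv.Perm.mul_apply, ih, pow_succ', Equiv.Perm.mul_apply,
      Equiv.Perm.mul_apply, Equiv.Perm.mul_apply, ex_img, hφ]

omit [Fintype D] [DecidableEq D] in
private theorem ex_powt {g : Perm E} (hg : TF g) {bs : List E}
    (φ : D ≃ {d : E // d ∉ tri g bs}) (α : Perm D) (e : E) (he : e ∈ tri g bs) (n : ℕ) :
    ((g * ex_a φ α) ^ n) e ∈ tri g bs ∧
      (((g * ex_a φ α) ^ n) e = e ∨ ((g * ex_a φ α) ^ n) e = g e ∨
        ((g * ex_a φ α) ^ n) e = g (g e)) := by
  induction n with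
  | zero => exact ⟨he, Or.inl rfl⟩
  | succ n ih =>
    obtain ⟨h1, h2⟩ := ih
    rw [pow_succ', Equiv.Perm.mul_apply, Equiv.Perm.mul_apply, ex_tri φ α _ h1]
    refine ⟨(tri_closed hg _ _).2 h1, ?_⟩
    rcases h2 with h2 | h2 | h2
    · exact Or.inr (Or.inl (by rw [h2]))
    · exact Or.inr (Or.inr (by rw [h2]))
    · exact Or.inl (by rw [h2, hg.three])

omit [DecidableEq D] in
private theorem ex_same {f : Perm D} {g : Perm E} {bs : List E}
    (φ : D ≃ {d : E // d ∉ tri g bs}) (hφ : ∀ d, ((φ (f d)) : E) = g (φ d)) (α : Perm D)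
    (a b : D) : (g * ex_a φ α).SameCycle (φ a) (φ b) ↔ (f * α).SameCycle a b := by
  constructor
  · intro h
    obtain ⟨n, hn⟩ := h.exists_nat_pow_eq
    rw [ex_pow φ hφ] at hn
    exact ⟨n, by rw [zpow_natCast]; exact ex_inj φ _ _ hn⟩
  · intro h
    obtain ⟨n, hn⟩ := h.exists_nat_pow_eq
    exact ⟨n, by rw [zpow_natCast, ex_pow φ hφ, hn]⟩

omit [Fintype D] [DecidableEq D] in
private theorem ex_same2 {f : Perm D} {g : Perm E} {bs : List E}
    (φ : D ≃ {d : E // d ∉ tri g bs}) (hφ : ∀ d, ((φ (f d)) : E) = g (φ d)) (α : Perm D)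
    (a : D) (e : E) (h : (g * ex_a φ α).SameCycle (φ a) e) :
    ∃ b : D, (φ b : E) = e ∧ (f * α).SameCycle a b := by
  obtain ⟨n, hn⟩ := h.exists_nat_pow_eq
  rw [ex_pow φ hφ] at hn
  exact ⟨_, hn, n, by rw [zpow_natCast]⟩

omit [Fintype E] [DecidableEq E] in
private theorem ex_root {g : Perm E} {bs : List E} (hb : (tri g bs).Nodup) (b b' : E)
    (hb1 : b ∈ bs) (hb2 : b' ∈ bs) (h : b' = b ∨ b' = g b ∨ b' = g (g b)) : b = b' := by
  unfold tri at hb
  rw [List.nodup_flatMap] at hb
  by_contra hne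
  have h1 := hb.2
  have : Std.Symm (Function.onFun List.Disjoint (fun b => [b, g b, g (g b)])) :=
    ⟨fun x y hxy => List.Disjoint.symm hxy⟩
  have h2 := h1.forall hb1 hb2 hne
  refine h2 (a := b') ?_ (by simp)
  rcases h with h | h | h
  · rw [h]; simp
  · rw [h]; simp
  · rw [h]; simp

omit [Fintype E] [DecidableEq E] in
private theorem ex_nd {g : Perm E} {bs : List E} (hb : (tri g bs).Nodup) : bs.Nodup := by
  unfold tri at hb
  rw [List.nodup_flatMap] at hb
  refine hb.2.imp ?_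
  intro a b h1 h2
  refine h1 (a := a) (by simp) ?_
  rw [h2]; simp

omit [DecidableEq D] in
private theorem ex_cyc {f : Perm D} {g : Perm E} (hg : TF g) {bs : List E}
    (hb : (tri g bs).Nodup) (φ : D ≃ {d : E // d ∉ tri g bs})
    (hφ : ∀ d, ((φ (f d)) : E) = g (φ d)) (α : Perm D) :
    cyc (g * ex_a φ α) = cyc (f * α) + bs.length := by
  classical
  have hbs : ∀ b ∈ bs, b ∈ tri g bs := fun b hb => (mem_tri g bs b).2 ⟨b, hb, Or.inl rfl⟩
  let F : Quotient (Equiv.Perm.SameCycle.setoid (f * α)) ⊕ {b : E // b ∈ bs} →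
      Quotient (Equiv.Perm.SameCycle.setoid (g * ex_a φ α)) :=
    Sum.elim
      (Quotient.lift (fun a => Quotient.mk (Equiv.Perm.SameCycle.setoid (g * ex_a φ α)) (φ a : E))
        (fun a b h => Quotient.sound ((ex_same φ hφ α a b).2 h)))
      (fun b => Quotient.mk (Equiv.Perm.SameCycle.setoid (g * ex_a φ α)) (b : E))
  have hF : Function.Bijective F := by
    constructor
    · rintro (x | x) (y | y)
      · induction x using Quotient.inductionOn with
        | h a =>
          induction y using Quotient.inductionOn with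
          | h b =>
            intro h
            have h1 : (g * ex_a φ α).SameCycle (φ a) (φ b) := Quotient.exact h
            exact congrArg Sum.inl (Quotient.sound ((ex_same φ hφ α a b).1 h1))
      · induction x using Quotient.inductionOn with
        | h a =>
          intro h
          have h1 : (g * ex_a φ α).SameCycle (φ a) (y : E) := Quotient.exact h
          obtain ⟨b, hb1, -⟩ := ex_same2 φ hφ α a y h1
          exact absurd (hbs _ y.2) (hb1 ▸ (φ b).2)
      · induction y using Quotient.inductionOn with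
        | h a =>
          intro h
          have h1 : (g * ex_a φ α).SameCycle (x : E) (φ a) := Quotient.exact h
          obtain ⟨b, hb1, -⟩ := ex_same2 φ hφ α a x h1.symm
          exact absurd (hbs _ x.2) (hb1 ▸ (φ b).2)
      · intro h
        have h1 : (g * ex_a φ α).SameCycle (x : E) (y : E) := Quotient.exact h
        obtain ⟨n, hn⟩ := h1.exists_nat_pow_eq
        obtain ⟨-, h3⟩ := ex_powt hg φ α x (hbs _ x.2) n
        rw [hn] at h3
        exact congrArg Sum.inr (Subtype.ext (ex_root hb x y x.2 y.2 h3))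
    · intro q
      induction q using Quotient.inductionOn with
      | h e =>
        rcases ex_cases φ e with he | ⟨d, hd⟩
        · obtain ⟨b, hb1, hb2⟩ := (mem_tri g bs e).1 he
          refine ⟨Sum.inr ⟨b, hb1⟩, Quotient.sound ?_⟩
          have ht : b ∈ tri g bs := hbs b hb1
          have ht2 : g b ∈ tri g bs := (tri_closed hg _ _).2 ht
          have e1 : (g * ex_a φ α) b = g b := by
            rw [Equiv.Perm.mul_apply, ex_tri φ α b ht]
          have e2 : (g * ex_a φ α) (g b) = g (g b) := by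
            rw [Equiv.Perm.mul_apply, ex_tri φ α _ ht2]
          rcases hb2 with h | h | h
          · rw [h]
          · refine ⟨1, ?_⟩
            rw [zpow_one, h]
            exact e1
          · refine ⟨2, ?_⟩
            have : ((g * ex_a φ α) ^ (2 : ℤ)) b = (g * ex_a φ α) ((g * ex_a φ α) b) := by
              rw [show (2 : ℤ) = ((2 : ℕ) : ℤ) from rfl, zpow_natCast, pow_two,
                Equiv.Perm.mul_apply]
            change ((g * ex_a φ α) ^ (2 : ℤ)) b = e
            rw [this, e1, e2, h]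
        · exact ⟨Sum.inl (Quotient.mk _ d), congrArg _ hd⟩
  have h1 := Nat.card_congr (Equiv.ofBijective F hF)
  unfold cyc
  rw [← h1, Nat.card_sum]
  congr 1
  rw [Nat.card_eq_fintype_card, Fintype.card_subtype]
  have h2 : (Finset.univ.filter fun b => b ∈ bs) = bs.toFinset := by
    ext b
    simp
  rw [h2, List.toFinset_card_of_nodup (ex_nd hb)]

omit [Fintype D] [DecidableEq D] [Fintype E] in
private theorem ex_PT {f : Perm D} {g : Perm E} {bs : List E} (hb : (tri g bs).Nodup)
    (φ : D ≃ {d : E // d ∉ tri g bs}) (hφ : ∀ d, ((φ (f d)) : E) = g (φ d)) {α : Perm D}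
    (h : PT f α []) : PT g (ex_a φ α) bs := by
  have hnl : ∀ d, α d ≠ d := by
    intro d hd
    have := (h.leg d).1 hd
    simp [tri] at this
  refine ⟨?_, ?_, hb, ?_⟩
  · intro e
    rcases ex_cases φ e with he | ⟨d, rfl⟩
    · rw [ex_tri φ α e he, ex_tri φ α e he]
    · rw [ex_img, ex_img, h.inv]
  · intro e
    rcases ex_cases φ e with he | ⟨d, rfl⟩
    · exact ⟨fun _ => he, fun _ => ex_tri φ α e he⟩
    · rw [ex_img]
      refine ⟨fun h1 => absurd (ex_inj φ _ _ h1) (hnl d), fun h1 => absurd h1 (φ d).2⟩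
  · intro P hP hPg hPa e he
    have hex : ∀ e, ex_a φ α e ≠ e → ∃ d : D, (φ d : E) = e := by
      intro e he
      rcases ex_cases φ e with h1 | h1
      · exact absurd (ex_tri φ α e h1) he
      · exact h1
    obtain ⟨d, rfl⟩ := hex e he
    obtain ⟨e0, he0, hPe0⟩ := hP
    obtain ⟨d0, rfl⟩ := hex e0 he0
    refine h.con (fun d => P (φ d)) ⟨d0, hnl d0, hPe0⟩ ?_ ?_ d (hnl d)
    · intro d hd
      rw [hφ]
      exact hPg _ hd
    · intro d hd
      rw [← ex_img]
      exact hPa _ hd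

/-- the labels -/
private noncomputable def ex_l (f : Perm D) {g : Perm E} {bs : List E}
    (φ : D ≃ {d : E // d ∉ tri g bs}) (α : Perm D) (x : D) (e : E) : ℤ :=
  if h : e ∉ tri g bs then (dst f α x (φ.symm ⟨e, h⟩) : ℤ) else 0

omit [Fintype D] [DecidableEq D] [Fintype E] in
private theorem ex_lv (f : Perm D) {g : Perm E} {bs : List E}
    (φ : D ≃ {d : E // d ∉ tri g bs}) (α : Perm D) (x d : D) :
    ex_l f φ α x (φ d) = dst f α x d := by
  unfold ex_l
  rw [dif_pos (φ d).2]
  have : (⟨(φ d : E), (φ d).2⟩ : {d : E // d ∉ tri g bs}) = φ d := rfl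
  rw [this, Equiv.symm_apply_apply]

private theorem ex_lab {f : Perm D} (hf : TF f) {g : Perm E} {bs : List E}
    (φ : D ≃ {d : E // d ∉ tri g bs}) (hφ : ∀ d, ((φ (f d)) : E) = g (φ d)) {α : Perm D}
    (h : PT f α []) (x : D) : Lab g (ex_a φ α) (ex_l f φ α x) := by
  have hnl : ∀ d, α d ≠ d := by
    intro d hd
    have := (h.leg d).1 hd
    simp [tri] at this
  have hex : ∀ e, ex_a φ α e ≠ e → ∃ d : D, (φ d : E) = e := by
    intro e he
    rcases ex_cases φ e with h1 | h1
    · exact absurd (ex_tri φ α e h1) he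
    · exact h1
  have hnl2 : ∀ d : D, ex_a φ α (φ d) ≠ φ d := by
    intro d hd
    rw [ex_img] at hd
    exact hnl d (ex_inj φ _ _ hd)
  have L := dst_lab hf h x
  refine ⟨?_, ?_, ?_, ?_, ?_, ?_⟩
  · intro e he
    obtain ⟨d, rfl⟩ := hex e he
    rw [ex_lv]
    exact Int.natCast_nonneg _
  · intro e he
    obtain ⟨d, rfl⟩ := hex e he
    rw [← hφ, ex_img, ex_lv, ex_lv]
    exact L.ver d (hnl d)
  · intro e he
    obtain ⟨d, rfl⟩ := hex e he
    rw [← hφ, ex_lv, ex_lv]
    exact L.lip d (hnl d)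
  · intro e he h0
    obtain ⟨d, rfl⟩ := hex e he
    rw [ex_lv] at h0
    obtain ⟨d', h1, h2, h3⟩ := L.dsc d (hnl d) h0
    refine ⟨φ d', (ex_same φ hφ α d d').2 h1, hnl2 d', ?_⟩
    unfold Desc at h3 ⊢
    rw [← hφ, ex_lv, ex_lv]
    exact h3
  · intro e e' he he' h0 h0'
    obtain ⟨d, rfl⟩ := hex e he
    obtain ⟨d', rfl⟩ := hex e' he'
    rw [ex_lv] at h0 h0'
    exact (ex_same φ hφ α d d').2 (L.zro d d' (hnl d) (hnl d') h0 h0')
  · refine ⟨φ x, hnl2 x, ?_⟩
    rw [ex_lv, dst_self f α x x (Equiv.Perm.SameCycle.refl _ _)]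
    rfl

end

theorem ext {D E : Type} [Fintype D] [DecidableEq D] [Fintype E] [DecidableEq E] {f : Perm D}
    {g : Perm E} (hf : TF f) (hg : TF g) {bs : List E} (hb : (tri g bs).Nodup) {K : ℕ}
    (hK : bs.length = 2 * K) (φ : D ≃ {d : E // d ∉ tri g bs})
    (hφ : ∀ d, ((φ (f d)) : E) = g (φ d)) (v r : ℕ) :
    (Zd f v r).ncard ≤
      {c : Perm E × E × E | (c.1, bs, c.2.1, c.2.2) ∈ Xd g (v + K) r K}.ncard := by
  refine Set.ncard_le_ncard_of_injOn
    (fun c : Perm D × D × D => (ex_a φ c.1, rep g (ex_a φ c.1) (φ c.2.1), (φ c.2.2 : E)))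
    ?_ ?_ (Set.toFinite _)
  · rintro ⟨α, x, δ⟩ hc
    obtain ⟨⟨hpt, hcyc⟩, hrx, hd, hd1⟩ := hc
    simp only at hpt hcyc hrx hd hd1
    have hnl : ∀ d, α d ≠ d := by
      intro d hd
      have := (hpt.leg d).1 hd
      simp [tri] at this
    have hnl2 : ∀ d : D, ex_a φ α (φ d) ≠ φ d := by
      intro d hd
      rw [ex_img] at hd
      exact hnl d (ex_inj φ _ _ hd)
    have hs := (rep_same g (ex_a φ α) (φ x)).symm
    obtain ⟨y, hy, hxy⟩ := ex_same2 φ hφ α x _ hs
    refine ⟨ex_PT hb φ hφ hpt, hK, ?_, ?_, ex_l f φ α x, ex_lab hf φ hφ hpt x, ?_, ?_, hnl2 δ,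
      ?_, ?_⟩
    · change cyc (g * ex_a φ α) = v + K + K
      rw [ex_cyc hg hb φ hφ α, hcyc, hK]
      ring
    · exact (rep_eq hs).symm
    · change ex_a φ α (rep g (ex_a φ α) (φ x)) ≠ rep g (ex_a φ α) (φ x)
      rw [← hy]
      exact hnl2 y
    · change ex_l f φ α x (rep g (ex_a φ α) (φ x)) = 0
      rw [← hy, ex_lv, dst_self f α x y hxy]
      rfl
    · change ex_l f φ α x (φ δ) = r
      rw [ex_lv, hd]
    · change ex_l f φ α x (g (φ δ)) = ex_l f φ α x (φ δ) - 1
      rw [← hφ, ex_lv, ex_lv, hd]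
      have : ((dst f α x (f δ) : ℕ) : ℤ) + 1 = r := by exact_mod_cast hd1
      omega
  · rintro ⟨α, x, δ⟩ hc ⟨α2, x2, δ2⟩ hc2 h
    obtain ⟨⟨hpt, hcyc⟩, hrx, hd, hd1⟩ := hc
    obtain ⟨-, hrx2, -, -⟩ := hc2
    simp only at hrx hrx2
    simp only [Prod.mk.injEq] at h
    obtain ⟨h1, h2, h3⟩ := h
    have e1 : α = α2 := by
      ext d
      have := congrArg (fun p : Perm E => p (φ d)) h1
      simp only [ex_img] at this
      exact ex_inj φ _ _ this
    subst e1
    have e3 := ex_inj φ _ _ h3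
    subst e3
    have hs1 := (rep_same g (ex_a φ α) (φ x)).symm
    have hs2 := rep_same g (ex_a φ α) (φ x2)
    rw [← h2] at hs2
    have hs := (ex_same φ hφ α x x2).1 (hs1.trans hs2)
    have e2 := rep_eq hs
    rw [hrx, hrx2] at e2
    rw [e2]

end QF39
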