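import Pool.Agent.H39.UN.Rho
import Pool.Agent.H39.UN.RhoA

/-!
Module RAT (P186, QF). Ratio of the numbers of triangulations. REAL ANALYSIS.

Proof. `rho` (UN/Rho) with `ω1 < 6 dl h < ω2` (`dl_range`): for `n` large and every `N` between `n` and `n + C log n`, with
`v = v n + (N - n)`: `bc (N - 1) (v - 1) / bc N v ≥ lamw (v / N) - ε`; `v / N` is close to `v n / n` (difference `≤ C log n / n`), so
close to `6 dl h`; `lamw` is continuous (`lamw_cont`) and `lamw (6 dl h) = lam h` (`thw_dl`); so the quotient is `≥ λ1` for `n` large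
(`ε` small; `bc N v > 0`: otherwise the quotient is `0` in Lean, contradiction with `≥ λ1 > 0`; parity is preserved). Induction on `K`.
-/

set_option autoImplicit false

namespace QF39

open HG39 UN39 Filter Topology

theorem rat {h : ℝ} (h0 : 0 < h) (h1 : h < 1 / 4) {v : ℕ → ℕ}
    (hv : Tendsto (fun n => (v n : ℝ) / n) atTop (𝓝 (6 * dl h)))
    (hp : ∀ᶠ n in atTop, v n % 2 = n % 2) {l1 : ℝ} (hl : 0 < l1) (hl2 : l1 < lam h) (C : ℝ) :
    ∃ n0 : ℕ, ∀ n, n0 ≤ n → ∀ K : ℕ, (K : ℝ) ≤ C * Real.log n →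
      bc (n + K) (v n + K) * l1 ^ K ≤ bc n (v n) := by
  obtain ⟨hw0, hw1⟩ := dl_range h0 h1
  set ω : ℝ := 6 * dl h with hω
  have hlam : lamw ω = lam h := by rw [lamw, hω, thw_dl h0 h1]
  set e : ℝ := (lam h - l1) / 2 with he
  have he0 : 0 < e := by rw [he]; linarith
  have hcont : ContinuousAt lamw ω := lamw_cont.1.continuousAt (Ioo_mem_nhds hw0 hw1)
  obtain ⟨d, hd0, hd⟩ := Metric.continuousAt_iff.1 hcont e he0
  obtain ⟨m, hm1, hm2, hm3, hm4⟩ : ∃ m : ℝ, 0 < m ∧ m ≤ d ∧ m ≤ ω / 2 ∧ m ≤ (1 - ω) / 2 := by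
    refine ⟨min d (min (ω / 2) ((1 - ω) / 2)), ?_, min_le_left _ _,
      (min_le_right _ _).trans (min_le_left _ _), (min_le_right _ _).trans (min_le_right _ _)⟩
    refine lt_min hd0 (lt_min ?_ ?_) <;> linarith
  obtain ⟨n1, hn1⟩ := rho (ω1 := ω / 2) (ω2 := (1 + ω) / 2) (by linarith) (by linarith) he0
  have hlog : Tendsto (fun n : ℕ => C * Real.log n / n) atTop (𝓝 0) := by
    have h2 : Tendsto (fun x : ℝ => Real.log x / x) atTop (𝓝 0) := by
      have h3 := Real.isLittleO_log_id_atTop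
      exact h3.tendsto_div_nhds_zero
    have h4 := (h2.comp tendsto_natCast_atTop_atTop).const_mul C
    rw [mul_zero] at h4
    refine h4.congr fun n => ?_
    simp only [Function.comp_apply]
    ring
  have hev : ∀ᶠ n : ℕ in atTop, n1 ≤ n ∧ 1 ≤ n ∧ v n % 2 = n % 2 ∧ |(v n : ℝ) / n - ω| < m / 2 ∧
      C * Real.log n / n < m / 2 := by
    have e1 : ∀ᶠ n : ℕ in atTop, |(v n : ℝ) / n - ω| < m / 2 := by
      have h5 := (Metric.tendsto_nhds.1 hv) (m / 2) (by linarith)
      filter_upwards [h5] with n hn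
      rwa [Real.dist_eq] at hn
    have e2 : ∀ᶠ n : ℕ in atTop, C * Real.log n / n < m / 2 :=
      hlog.eventually (gt_mem_nhds (by linarith))
    filter_upwards [eventually_ge_atTop n1, eventually_ge_atTop 1, hp, e1, e2] with n a1 a2 a3 a4 a5
    exact ⟨a1, a2, a3, a4, a5⟩
  obtain ⟨n0, hn0⟩ := eventually_atTop.1 hev
  refine ⟨n0, fun n hn K => ?_⟩
  obtain ⟨b1, b2, b3, b4, b5⟩ := hn0 n hn
  have hnp : (0 : ℝ) < n := by exact_mod_cast b2
  have key : ∀ j : ℕ, 1 ≤ j → (j : ℝ) ≤ C * Real.log n →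
      bc (n + j) (v n + j) * l1 ≤ bc (n + j - 1) (v n + j - 1) := by
    intro j hj hjC
    set N : ℕ := n + j with hN
    set V : ℕ := v n + j with hV
    have hNr : (N : ℝ) = n + j := by rw [hN]; push_cast; ring
    have hVr : (V : ℝ) = v n + j := by rw [hV]; push_cast; ring
    have hj0 : (0 : ℝ) < j := by exact_mod_cast hj
    have hNp : (0 : ℝ) < N := by rw [hNr]; linarith
    have hb4 := abs_lt.1 b4
    have hjn : (j : ℝ) / n < m / 2 := by
      refine lt_of_le_of_lt ?_ b5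
      exact div_le_div_of_nonneg_right hjC hnp.le
    have hdiff : (V : ℝ) / N - (v n : ℝ) / n = (j / N) * (1 - (v n : ℝ) / n) := by
      rw [hNr, hVr]
      have : (n : ℝ) + j ≠ 0 := by linarith
      field_simp
      ring
    have hjN : (j : ℝ) / N ≤ j / n := by
      apply div_le_div_of_nonneg_left hj0.le hnp
      rw [hNr]; linarith
    have hjN0 : (0 : ℝ) ≤ j / N := div_nonneg hj0.le hNp.le
    have h1v : 0 ≤ 1 - (v n : ℝ) / n ∧ 1 - (v n : ℝ) / n ≤ 1 := by
      constructor <;> linarith [hb4.1, hb4.2]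
    have hpr : 0 ≤ (j / N : ℝ) * (1 - (v n : ℝ) / n) ∧
        (j / N : ℝ) * (1 - (v n : ℝ) / n) ≤ m / 2 := by
      refine ⟨mul_nonneg hjN0 h1v.1, ?_⟩
      calc (j / N : ℝ) * (1 - (v n : ℝ) / n) ≤ (j / N : ℝ) * 1 :=
            mul_le_mul_of_nonneg_left h1v.2 hjN0
        _ ≤ m / 2 := by linarith
    have hVN : |(V : ℝ) / N - ω| < m := by
      rw [abs_lt]
      constructor <;> linarith [hb4.1, hb4.2, hpr.1, hpr.2]
    have hVN' := abs_lt.1 hVN
    have c1 : ω / 2 * N ≤ V := by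
      have : ω / 2 ≤ (V : ℝ) / N := by linarith
      rwa [le_div_iff₀ hNp] at this
    have c2 : (V : ℝ) ≤ (1 + ω) / 2 * N := by
      have : (V : ℝ) / N ≤ (1 + ω) / 2 := by linarith
      rwa [div_le_iff₀ hNp] at this
    have c3 := hn1 N V (by omega) c1 c2 (by omega)
    have c4 := hd (x := (V : ℝ) / N) (by rw [Real.dist_eq]; linarith)
    rw [Real.dist_eq, hlam] at c4
    have c5 := (abs_le.1 c3).1
    have c6 := (abs_lt.1 c4).1
    have c7 : l1 < bc (N - 1) (V - 1) / bc N V := by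
      have : l1 = lam h - 2 * e := by rw [he]; ring
      rw [this]
      linarith
    have c8 : 0 < bc N V := by
      rcases (bc_nonneg N V).lt_or_eq with h5 | h5
      · exact h5
      · rw [← h5, div_zero] at c7
        linarith
    rw [lt_div_iff₀ c8] at c7
    rw [mul_comm]
    exact c7.le
  induction K with
  | zero =>
    intro _
    simp
  | succ K ih =>
    intro hK
    have h2 : (K : ℝ) ≤ C * Real.log n := by
      push_cast at hK
      linarith
    have h3 := ih h2
    have h4 := key (K + 1) (by omega) hK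
    rw [show n + (K + 1) - 1 = n + K from by omega,
      show v n + (K + 1) - 1 = v n + K from by omega] at h4
    calc bc (n + (K + 1)) (v n + (K + 1)) * l1 ^ (K + 1)
        = (bc (n + (K + 1)) (v n + (K + 1)) * l1) * l1 ^ K := by ring
      _ ≤ bc (n + K) (v n + K) * l1 ^ K :=
          mul_le_mul_of_nonneg_right h4 (pow_nonneg hl.le _)
      _ ≤ bc n (v n) := h3

end QF39
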