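import Pool.Agent.H39.QF.Cnj
import Pool.Agent.H39.QF.Ext
import Pool.Agent.H39.UN.Law

/-!
Module TRA (P186, QF). Comparison of `Zd` (on `6 n` darts) and `Xd` (on `6 (n + K)` darts).

Proof. `Xd g (v + K) r K` is the disjoint union over the lists `bs` of length `2 K` of the sets in `ext`; for every
`w ∈ lawW g (2 K)` (`bs = List.ofFn w`, `tri g bs` duplicate free) the complement of `tri g bs` has `6 n` elements, `g` restricted to it
(`Equiv.Perm.subtypePerm`) is again `TF`, so there is `φ` by `cnj`, and `ext` gives `#Zd f v r ≤` (size of this part). So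
`#(lawW g (2 K)) * #Zd ≤ #Xd`, and `law_W`: `#(lawW g (2 K)) * (2 n)! * 3 ^ (2 n) = (2 (n + K))! * 3 ^ (2 (n + K))`.
-/

set_option autoImplicit false

namespace QF39

open Equiv HG39

theorem tra_phi {D E : Type} [Fintype D] [DecidableEq D] [Fintype E] [DecidableEq E] {f : Perm D}
    {g : Perm E} (hf : TF f) (hg : TF g) {n K : ℕ} (hD : Fintype.card D = 6 * n)
    (hE : Fintype.card E = 6 * (n + K)) {bs : List E} (hb : (tri g bs).Nodup)
    (hK : bs.length = 2 * K) :
    ∃ φ : D ≃ {d : E // d ∉ tri g bs}, ∀ d, ((φ (f d)) : E) = g (φ d) := by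
  have hp : ∀ x, (g x ∉ tri g bs) ↔ (x ∉ tri g bs) := fun x => not_congr (tri_closed hg bs x)
  have hT : TF (g.subtypePerm (p := fun x => x ∉ tri g bs) hp) := by
    constructor
    · rintro ⟨d, hd⟩
      apply Subtype.ext
      simp only [Perm.subtypePerm_apply]
      exact hg.three d
    · rintro ⟨d, hd⟩ h
      have h1 := congrArg Subtype.val h
      simp only [Perm.subtypePerm_apply] at h1
      exact hg.nf d h1
  have hc : Fintype.card {d : E // d ∉ tri g bs} = 6 * n := by
    rw [Fintype.card_subtype]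
    have h4 : (Finset.univ.filter fun a => a ∉ tri g bs) =
        Finset.univ \ (tri g bs).toFinset := by
      ext a
      simp
    rw [h4, Finset.card_sdiff_of_subset (Finset.subset_univ _), Finset.card_univ,
      List.toFinset_card_of_nodup hb, UN39.law_len, hK, hE]
    omega
  obtain ⟨φ, hφ⟩ := cnj hf hT (hD.trans hc.symm)
  refine ⟨φ, fun d => ?_⟩
  rw [hφ]
  rfl

theorem tra {D E : Type} [Fintype D] [DecidableEq D] [Fintype E] [DecidableEq E] {f : Perm D}
    {g : Perm E} (hf : TF f) (hg : TF g) {n K : ℕ} (hD : Fintype.card D = 6 * n)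
    (hE : Fintype.card E = 6 * (n + K)) (v r : ℕ) :
    (Zd f v r).ncard * ((2 * (n + K)).factorial * 3 ^ (2 * K)) ≤
      (Xd g (v + K) r K).ncard * (2 * n).factorial := by
  classical
  have hfin : (Xd g (v + K) r K).Finite := by
    refine (Set.finite_range (fun q : Perm E × (Fin (2 * K) → E) × E × E =>
      (q.1, List.ofFn q.2.1, q.2.2.1, q.2.2.2))).subset ?_
    rintro ⟨c, l, x, y⟩ hc
    have hl : l.length = 2 * K := hc.2.1
    refine ⟨(c, fun i => l.get (i.cast hl.symm), x, y), ?_⟩
    simp only [Prod.mk.injEq, true_and, and_true]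
    apply List.ext_get
    · rw [List.length_ofFn, hl]
    · intro m h1 h2
      simp
  have h1 : ∀ w ∈ UN39.lawW g (2 * K), (Zd f v r).ncard ≤
      (Finset.univ.filter fun c : Perm E × E × E =>
        (c.1, List.ofFn w, c.2.1, c.2.2) ∈ Xd g (v + K) r K).card := by
    intro w hw
    unfold UN39.lawW at hw
    rw [Finset.mem_filter] at hw
    obtain ⟨φ, hφ⟩ := tra_phi hf hg hD hE hw.2 (List.length_ofFn)
    refine (ext hf hg hw.2 (List.length_ofFn) φ hφ v r).trans (le_of_eq ?_)
    rw [Set.ncard_eq_toFinset_card']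
    congr 1
    ext c
    simp
  have h2 : ∑ w ∈ UN39.lawW g (2 * K), (Finset.univ.filter fun c : Perm E × E × E =>
      (c.1, List.ofFn w, c.2.1, c.2.2) ∈ Xd g (v + K) r K).card ≤ (Xd g (v + K) r K).ncard := by
    rw [← Finset.card_sigma, Set.ncard_eq_toFinset_card _ hfin]
    refine Finset.card_le_card_of_injOn
      (fun q => (q.2.1, List.ofFn q.1, q.2.2.1, q.2.2.2)) ?_ ?_
    · rintro ⟨w, c⟩ hq
      simp only [Finset.coe_sigma, Set.mem_sigma_iff, Finset.mem_coe, Finset.mem_filter,
        Finset.mem_univ, true_and] at hq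
      simpa using hq.2
    · rintro ⟨w, c⟩ _ ⟨w', c'⟩ _ h
      simp only [Prod.mk.injEq] at h
      obtain ⟨e1, e2, e3, e4⟩ := h
      have e5 := List.ofFn_injective e2
      subst e5
      have e6 : c = c' := Prod.ext e1 (Prod.ext e3 e4)
      rw [e6]
  have h3 : (UN39.lawW g (2 * K)).card * (Zd f v r).ncard ≤ (Xd g (v + K) r K).ncard := by
    refine le_trans ?_ h2
    rw [← smul_eq_mul, ← Finset.sum_const]
    exact Finset.sum_le_sum h1
  have h4 := UN39.law_W hg hE (2 * K) (by omega)
  have e : 2 * (n + K) - 2 * K = 2 * n := by omega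
  have e2 : 2 * (n + K) = 2 * n + 2 * K := by ring
  rw [e] at h4
  have h5 : (UN39.lawW g (2 * K)).card * (2 * n).factorial =
      (2 * (n + K)).factorial * 3 ^ (2 * K) := by
    have h6 : (UN39.lawW g (2 * K)).card * (2 * n).factorial * 3 ^ (2 * n) =
        (2 * (n + K)).factorial * 3 ^ (2 * K) * 3 ^ (2 * n) := by
      rw [mul_assoc, h4]
      conv_lhs => rw [e2, pow_add]
      rw [← e2]
      ring
    exact Nat.eq_of_mul_eq_mul_right (by positivity) h6
  rw [← h5]
  calc (Zd f v r).ncard * ((UN39.lawW g (2 * K)).card * (2 * n).factorial)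
      = ((UN39.lawW g (2 * K)).card * (Zd f v r).ncard) * (2 * n).factorial := by ring
    _ ≤ _ := Nat.mul_le_mul_right _ h3

end QF39
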