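import Pool.Agent.H39.QF.Itm
import Pool.Agent.H39.QF.Tra
import Pool.Agent.H39.QF.Rat
import Pool.Agent.H39.HG.TEnum

/-!
Module FM (P186, QF). The first moment of the number of descending darts of level `r`. REAL ANALYSIS.

`D` is any type with `6 n` elements.
Proof. Given `κ, B > 0`. `mh` and `lam` are continuous and strictly increasing on `(0, 1/4)`: choose `0 < h' < h` and `μ` with
`mh h * exp (-κ / (4 B)) < μ < mh h'`, and `l1 = lam h' < lam h`. `enum h' μ` (HG/TEnum): `c > 0`, `C ≥ 1`; for `r ≥ 1` there are `K` with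
`2 ≤ K ≤ C r` and `F` with `c μ^r ≤ C r #F l1^K`. Let `1 ≤ r ≤ B log n`. `tra` (with any `TF` permutation `g` of `Fin (6 (n + K))`, `TF_ex`)
and `itm` for `g`, `v n + K`:
`#Zd (2(n+K))! 3^(2K) #F ≤ (2n)! #Xd #F ≤ (2n)! #(TS g (v n + K)) 6 (n+K) (12 K + 1) = (2n)! (12K+1) (2(n+K))! 3^(2(n+K)) bc (n+K) (v n+K)`
(`ts_card`), so `#Zd #F ≤ (12 K + 1) (2n)! 3^(2n) bc (n+K) (v n+K) ≤ (12 K + 1) l1^(-K) 6 n #TS f (v n)` (`rat` with the constant `C B`,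
`ts_card`), and `#Zd ≤ (12 K + 1) 6 n (C r / c) μ^(-r) #TS`; `μ^(-r) ≤ mh^(-r) n^(κ/4)`, and `(12 K + 1) 6 C r / c ≤ n^(κ/2)` for large `n`.
-/

set_option autoImplicit false

namespace QF39

open Equiv HG39 Filter Topology

private theorem fm_mhc {h : ℝ} (h0 : 0 < h) : ContinuousAt mh h := by
  unfold mh
  have h2 : 2 * h ≠ 0 := by positivity
  refine ContinuousAt.div ?_ ?_ h2
  · fun_prop
  · fun_prop

private theorem fm_pick {h : ℝ} (h0 : 0 < h) (h1 : h < 1 / 4) {κ B : ℝ} (hκ : 0 < κ)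
    (hB : 0 < B) :
    ∃ h' μ : ℝ, 0 < h' ∧ h' < h ∧ 0 < μ ∧ μ < mh h' ∧
      mh h * Real.exp (-(κ / (4 * B))) ≤ μ := by
  have hm := (mh_prop h h0 h1).1
  have hpos : 0 < κ / (4 * B) := by positivity
  have he : Real.exp (-(κ / (4 * B))) < 1 := by
    rw [Real.exp_lt_one_iff]
    linarith
  have h3 : mh h * Real.exp (-(κ / (4 * B))) < mh h := by nlinarith
  have h4 : ∀ᶠ t in 𝓝[<] h, mh h * Real.exp (-(κ / (4 * B))) < mh t :=
    ((fm_mhc h0).tendsto.mono_left nhdsWithin_le_nhds).eventually (lt_mem_nhds h3)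
  have h5 : ∀ᶠ t in 𝓝[<] h, t ∈ Set.Ioo 0 h := Ioo_mem_nhdsLT h0
  obtain ⟨t, ht1, ht2⟩ := (h4.and h5).exists
  exact ⟨t, mh h * Real.exp (-(κ / (4 * B))), ht2.1, ht2.2, by positivity, ht1, le_rfl⟩

private theorem fm_big {κ : ℝ} (hκ : 0 < κ) (a b : ℝ) (ha : 0 ≤ a) (hb : 0 ≤ b) :
    ∃ n0 : ℕ, ∀ n : ℕ, n0 ≤ n →
      a * Real.log n * (b * Real.log n + 1) ≤ (n : ℝ) ^ (κ / 2) := by
  have h1 : Tendsto (fun n : ℕ => (n : ℝ) ^ (κ / 4)) atTop atTop :=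
    (tendsto_rpow_atTop (by positivity)).comp tendsto_natCast_atTop_atTop
  obtain ⟨n0, h2⟩ := eventually_atTop.1
    (h1.eventually_ge_atTop (a * (8 / κ) * (b * (8 / κ) + 1)))
  refine ⟨max n0 1, fun n hn => ?_⟩
  have hn1 : 1 ≤ n := (le_max_right _ _).trans hn
  have hn1' : (1 : ℝ) ≤ n := by exact_mod_cast hn1
  have h3 := h2 n ((le_max_left _ _).trans hn)
  have h4 : Real.log n ≤ (8 / κ) * (n : ℝ) ^ (κ / 8) := by
    have := Real.log_le_rpow_div (Nat.cast_nonneg n : (0 : ℝ) ≤ n) (by positivity : 0 < κ / 8)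
    refine this.trans (le_of_eq ?_)
    field_simp
  have h5 : (1 : ℝ) ≤ (n : ℝ) ^ (κ / 8) := Real.one_le_rpow hn1' (by positivity)
  have h6 : (n : ℝ) ^ (κ / 8) * (n : ℝ) ^ (κ / 8) = (n : ℝ) ^ (κ / 4) := by
    rw [← Real.rpow_add (by linarith)]
    congr 1
    ring
  have h7 : (n : ℝ) ^ (κ / 4) * (n : ℝ) ^ (κ / 4) = (n : ℝ) ^ (κ / 2) := by
    rw [← Real.rpow_add (by linarith)]
    congr 1
    ring
  have h8 : 0 ≤ Real.log n := Real.log_nonneg hn1'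
  calc a * Real.log n * (b * Real.log n + 1)
      ≤ a * ((8 / κ) * (n : ℝ) ^ (κ / 8)) *
        (b * ((8 / κ) * (n : ℝ) ^ (κ / 8)) + (n : ℝ) ^ (κ / 8)) := by gcongr
    _ = (a * (8 / κ) * (b * (8 / κ) + 1)) * (n : ℝ) ^ (κ / 4) := by rw [← h6]; ring
    _ ≤ (n : ℝ) ^ (κ / 4) * (n : ℝ) ^ (κ / 4) := by gcongr
    _ = _ := h7

private theorem fm_alg {Z X T T' Φ A a b b' l c μ C r K N n w w' : ℝ} (hZ : 0 ≤ Z)
    (hA : 0 < A) (ha : 0 < a) (hΦ : 0 ≤ Φ) (hl : 0 < l) (hC : 0 ≤ C * r) (hK : 0 ≤ K)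
    (hw : 0 < w) (hw' : 0 < w') (e1 : Z * (A * w) ≤ X * a)
    (e2 : X * Φ ≤ T' * (6 * N * (12 * K + 1))) (e3 : T * (6 * n) = a * w' * b)
    (e4 : T' * (6 * N) = A * (w' * w) * b') (e5 : b' * l ≤ b)
    (e6 : c * μ ≤ C * r * Φ * l) :
    Z * (c * μ) ≤ C * r * (12 * K + 1) * (6 * n) * T := by
  have f1 : A * w * (Z * Φ) ≤ A * w * (w' * b' * (12 * K + 1) * a) := by
    calc A * w * (Z * Φ) = Z * (A * w) * Φ := by ring
      _ ≤ X * a * Φ := mul_le_mul_of_nonneg_right e1 hΦ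
      _ = X * Φ * a := by ring
      _ ≤ T' * (6 * N * (12 * K + 1)) * a := mul_le_mul_of_nonneg_right e2 ha.le
      _ = T' * (6 * N) * ((12 * K + 1) * a) := by ring
      _ = A * (w' * w) * b' * ((12 * K + 1) * a) := by rw [e4]
      _ = _ := by ring
  have f2 : Z * Φ ≤ w' * b' * (12 * K + 1) * a := le_of_mul_le_mul_left f1 (by positivity)
  have f3 : Z * Φ * l ≤ (12 * K + 1) * (6 * n) * T := by
    calc Z * Φ * l ≤ w' * b' * (12 * K + 1) * a * l := mul_le_mul_of_nonneg_right f2 hl.le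
      _ = w' * (12 * K + 1) * a * (b' * l) := by ring
      _ ≤ w' * (12 * K + 1) * a * b := mul_le_mul_of_nonneg_left e5 (by positivity)
      _ = (12 * K + 1) * (a * w' * b) := by ring
      _ = (12 * K + 1) * (T * (6 * n)) := by rw [e3]
      _ = _ := by ring
  calc Z * (c * μ) ≤ Z * (C * r * Φ * l) := mul_le_mul_of_nonneg_left e6 hZ
    _ = C * r * (Z * Φ * l) := by ring
    _ ≤ C * r * ((12 * K + 1) * (6 * n) * T) := mul_le_mul_of_nonneg_left f3 hC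
    _ = _ := by ring

theorem fm {h : ℝ} (h0 : 0 < h) (h1 : h < 1 / 4) {v : ℕ → ℕ}
    (hv : Tendsto (fun n => (v n : ℝ) / n) atTop (𝓝 (6 * UN39.dl h)))
    (hp : ∀ᶠ n in atTop, v n % 2 = n % 2) {κ B : ℝ} (hκ : 0 < κ) (hB : 0 < B) :
    ∃ n0 : ℕ, ∀ n, n0 ≤ n → ∀ (D : Type) [Fintype D] [DecidableEq D], Fintype.card D = 6 * n →
      ∀ f : Perm D, TF f → ∀ r : ℕ, 1 ≤ r → (r : ℝ) ≤ B * Real.log n →
      ((Zd f (v n) r).ncard : ℝ) * mh h ^ r ≤ (n : ℝ) ^ (1 + κ) * (TS f (v n)).ncard := by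
  obtain ⟨h', μ, hp0, hph, hμ0, hμ1, hμ2⟩ := fm_pick h0 h1 hκ hB
  have h1' : h' < 1 / 4 := hph.trans h1
  obtain ⟨c, hc, C, hC, hen⟩ := enum h' hp0 h1' μ hμ0 hμ1
  have hl := lam_pos h' hp0
  have hl2 : HG39.lam h' < HG39.lam h :=
    UN39.lam_mono ⟨hp0.le, h1'.le⟩ ⟨h0.le, h1.le⟩ hph
  obtain ⟨n1, hn1⟩ := rat h0 h1 hv hp hl hl2 (C * B)
  obtain ⟨n2, hn2⟩ := fm_big hκ (6 * C * B / c) (12 * C * B) (by positivity) (by positivity)
  refine ⟨max (max n1 n2) 1, fun n hn D _ _ hD f hf r hr hrB => ?_⟩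
  have hnn1 : n1 ≤ n := (le_max_left _ _).trans ((le_max_left _ _).trans hn)
  have hnn2 : n2 ≤ n := (le_max_right _ _).trans ((le_max_left _ _).trans hn)
  have hnn : 1 ≤ n := (le_max_right _ _).trans hn
  have hnR : (1 : ℝ) ≤ n := by exact_mod_cast hnn
  have hnp : (0 : ℝ) < n := by linarith
  obtain ⟨K, hK2, hKC, F, hF, hFc⟩ := hen r hr
  have hKC' : (K : ℝ) ≤ C * r := by exact_mod_cast hKC
  have hKB : (K : ℝ) ≤ C * B * Real.log n := by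
    calc (K : ℝ) ≤ C * r := hKC'
      _ ≤ C * (B * Real.log n) := by gcongr
      _ = _ := by ring
  obtain ⟨g, hg⟩ := UN39.TF_ex (n + K)
  have e1 := tra hf hg hD (Fintype.card_fin (6 * (n + K))) (v n) r
  have e2 := itm hg (v n + K) r K hr F hF
  rw [Fintype.card_fin] at e2
  have e3 := UN39.ts_card hf hD hnn (v n)
  have e4 := UN39.ts_card hg (Fintype.card_fin (6 * (n + K))) (by omega) (v n + K)
  have e5 := hn1 n hnn1 K hKB
  have e1' : ((Zd f (v n) r).ncard : ℝ) * (((2 * (n + K)).factorial : ℝ) * 3 ^ (2 * K)) ≤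
      ((Xd g (v n + K) r K).ncard : ℝ) * ((2 * n).factorial : ℝ) := by exact_mod_cast e1
  have e2' : ((Xd g (v n + K) r K).ncard : ℝ) * (F.card : ℝ) ≤
      ((TS g (v n + K)).ncard : ℝ) * (6 * ((n + K : ℕ) : ℝ) * (12 * (K : ℝ) + 1)) := by
    exact_mod_cast e2
  have hpw : (3 : ℝ) ^ (2 * (n + K)) = 3 ^ (2 * n) * 3 ^ (2 * K) := by
    rw [← pow_add]
    congr 1
    ring
  rw [hpw] at e4
  have hmain := fm_alg (Nat.cast_nonneg _)
    (by exact_mod_cast Nat.factorial_pos (2 * (n + K)) : (0 : ℝ) < ((2 * (n + K)).factorial : ℝ))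
    (by exact_mod_cast Nat.factorial_pos (2 * n) : (0 : ℝ) < ((2 * n).factorial : ℝ))
    (Nat.cast_nonneg _) (pow_pos hl K) (by positivity : (0 : ℝ) ≤ (C : ℝ) * r)
    (Nat.cast_nonneg K) (by positivity : (0 : ℝ) < (3 : ℝ) ^ (2 * K))
    (by positivity : (0 : ℝ) < (3 : ℝ) ^ (2 * n)) e1' e2' e3 e4 e5 hFc
  obtain ⟨Z, hZ⟩ : ∃ Z : ℝ, Z = ((Zd f (v n) r).ncard : ℝ) := ⟨_, rfl⟩
  obtain ⟨T, hT⟩ : ∃ T : ℝ, T = ((TS f (v n)).ncard : ℝ) := ⟨_, rfl⟩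
  have hZ0 : 0 ≤ Z := by rw [hZ]; exact Nat.cast_nonneg _
  have hT0 : 0 ≤ T := by rw [hT]; exact Nat.cast_nonneg _
  rw [← hZ, ← hT] at hmain
  rw [← hZ, ← hT]
  have hlog : 0 ≤ Real.log n := Real.log_nonneg hnR
  have hm0 := (mh_prop h h0 h1).1
  -- `m ^ r ≤ μ ^ r n ^ (κ / 4)`
  have hmr : mh h ^ r ≤ μ ^ r * (n : ℝ) ^ (κ / 4) := by
    have g1 : mh h ≤ μ * Real.exp (κ / (4 * B)) := by
      calc mh h = mh h * Real.exp (-(κ / (4 * B))) * Real.exp (κ / (4 * B)) := by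
            rw [mul_assoc, ← Real.exp_add]
            simp
        _ ≤ μ * Real.exp (κ / (4 * B)) := mul_le_mul_of_nonneg_right hμ2 (Real.exp_pos _).le
    have g2 : mh h ^ r ≤ (μ * Real.exp (κ / (4 * B))) ^ r := pow_le_pow_left₀ hm0.le g1 r
    refine g2.trans ?_
    rw [mul_pow, ← Real.exp_nat_mul, Real.rpow_def_of_pos hnp]
    refine mul_le_mul_of_nonneg_left (Real.exp_le_exp.2 ?_) (by positivity)
    calc (r : ℝ) * (κ / (4 * B)) ≤ (B * Real.log n) * (κ / (4 * B)) :=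
          mul_le_mul_of_nonneg_right hrB (by positivity)
      _ = Real.log n * (κ / 4) := by
          field_simp
  have hbig := hn2 n hnn2
  have hpoly : 6 * C * r / c * (12 * K + 1) ≤ (n : ℝ) ^ (κ / 2) := by
    refine le_trans ?_ hbig
    calc 6 * C * r / c * (12 * K + 1)
        ≤ 6 * C * (B * Real.log n) / c * (12 * (C * B * Real.log n) + 1) := by gcongr
      _ = _ := by ring
  have hZμ : Z * μ ^ r ≤ 6 * C * r / c * (12 * K + 1) * (n * T) := by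
    have g1 : c * (Z * μ ^ r) ≤ c * (6 * C * r / c * (12 * K + 1) * (n * T)) := by
      calc c * (Z * μ ^ r) = Z * (c * μ ^ r) := by ring
        _ ≤ _ := hmain
        _ = _ := by
          field_simp
    exact le_of_mul_le_mul_left g1 hc
  have hfin : (n : ℝ) ^ (κ / 2) * n * (n : ℝ) ^ (κ / 4) ≤ (n : ℝ) ^ (1 + κ) := by
    have g1 : (n : ℝ) ^ (κ / 2) * n * (n : ℝ) ^ (κ / 4) = (n : ℝ) ^ (κ / 2 + 1 + κ / 4) := by
      rw [Real.rpow_add hnp, Real.rpow_add hnp, Real.rpow_one]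
    rw [g1]
    exact Real.rpow_le_rpow_of_exponent_le hnR (by linarith)
  calc Z * mh h ^ r ≤ Z * (μ ^ r * (n : ℝ) ^ (κ / 4)) := mul_le_mul_of_nonneg_left hmr hZ0
    _ = Z * μ ^ r * (n : ℝ) ^ (κ / 4) := by ring
    _ ≤ 6 * C * r / c * (12 * K + 1) * (n * T) * (n : ℝ) ^ (κ / 4) :=
        mul_le_mul_of_nonneg_right hZμ (by positivity)
    _ ≤ (n : ℝ) ^ (κ / 2) * (n * T) * (n : ℝ) ^ (κ / 4) := by gcongr
    _ = (n : ℝ) ^ (κ / 2) * n * (n : ℝ) ^ (κ / 4) * T := by ring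
    _ ≤ (n : ℝ) ^ (1 + κ) * T := mul_le_mul_of_nonneg_right hfin hT0

end QF39
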