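import Pool.Agent.H39.QF.Defs

/-!
Module ITM (P186, QF). Insertion of slices at all descending darts of level `r`.

Proof. As `mainP_item` in HG/MainP, where the pairs (vertex, vertex) are replaced by (vertex, descending dart): for
`c = (α, e :: c0 :: bs, x, δ) ∈ Xd f v r K` and `T ∈ F` take `δ1 = δ`, `δs` from `geo_exists` (`ℓ δ = r ≥ 1`), the data `InsH`, and the map
`(c, T) ↦ (insS f α e c0 bs T δ δs, (e, T))`, with values in the pairs (element of `TS f v`, item) (`ins_PT`, `ins_cyc`, `ins_item`,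
`items_count`). It is injective: `ins_inj` gives `α`, `c0`, `bs`, `δ`, `δs`; `x = rep f α (f (last δs))` because both have label `0`
(`Lab.zro`, `geo_lev`). (`δ` itself is recovered, this is the only difference; `mainP_R`, `mainP_data`, `mainP_inj` can be
copied.)
-/

set_option autoImplicit false

namespace QF39

open Equiv HG39

variable {D : Type} [Fintype D] [DecidableEq D]

/-- data of an insertion -/
private def itm_R (f : Perm D) (r : ℕ) (x : (Perm D × List D × D × D) × Tr)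
    (w : (_ : Perm D) × (D × Tr)) : Prop :=
  ∃ (ℓ : D → ℤ) (e c0 : D) (bs : List D) (δs : List D),
    x.1.2.1 = e :: c0 :: bs ∧ InsH f x.1.1 ℓ r e c0 bs x.2 x.1.2.2.2 δs ∧
    x.1.2.2.1 = rep f x.1.1 (f ((x.1.2.2.2 :: δs).getLast (List.cons_ne_nil _ _))) ∧
    w = ⟨insS f x.1.1 e c0 bs x.2 x.1.2.2.2 δs, (e, x.2)⟩

private theorem itm_data {f : Perm D} (hf : TF f) (v r K : ℕ)
    (c : Perm D × List D × D × D) (hc : c ∈ Xd f v r K) (T : Tr) (hT : Adm r K T) :
    ∃ w : (_ : Perm D) × (D × Tr), itm_R f r (c, T) w ∧ w.1 ∈ TS f v ∧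
      (Adm r K w.2.2 ∧ ∃ (ℓ : D → ℤ) (c : D) (bs : List D) (lv : List (D × Bool))
      (pr : List (D × D)) (As Bs : List D), Item f w.1 ℓ r w.2.1 c w.2.2 bs lv pr As Bs) := by
  obtain ⟨α, bs0, a, δ1⟩ := c
  obtain ⟨hpt, hlen, hcyc, hra, ℓ, hl, ha, ha0, hnl1, hbr, hdesc⟩ := hc
  simp only at hpt hlen hcyc hra hl ha ha0 hnl1 hbr hdesc
  obtain ⟨hok, hwt, hht, hsz⟩ := hT
  match bs0, hpt, hlen with
  | [], _, hlen => simp at hlen; omega
  | [_], _, hlen => simp at hlen; omega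
  | e :: c0 :: bs, hpt, hlen =>
    obtain ⟨δs, hgeo, hnl⟩ := geo_exists hf hpt hl δ1 hnl1 hdesc
    obtain ⟨-, hlen2⟩ := geo_lev hf hpt hl δ1 δs hgeo hnl
    have H : InsH f α ℓ r e c0 bs T δ1 δs := by
      refine ⟨hf, hpt, hl, hgeo, hnl, ?_, ?_, hok, hwt, hht, ?_⟩
      · have : (((δ1 :: δs).length : ℕ) : ℤ) = (r : ℤ) := by rw [hlen2, hbr]
        exact_mod_cast this
      · rw [hbr]
      · simp at hlen; omega
    refine ⟨⟨insS f α e c0 bs T δ1 δs, (e, T)⟩, ⟨ℓ, e, c0, bs, δs, rfl, H, ?_, rfl⟩,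
      ⟨ins_PT H, ?_⟩, ⟨hok, hwt, hht, hsz⟩, ?_⟩
    · show a = rep f α (f ((δ1 :: δs).getLast (List.cons_ne_nil _ _)))
      have hmem := List.getLast_mem (List.cons_ne_nil δ1 δs)
      have h0 : ℓ (f ((δ1 :: δs).getLast (List.cons_ne_nil _ _))) = 0 :=
        hgeo.last (δ1 :: δs).dropLast _
          (List.dropLast_append_getLast (List.cons_ne_nil δ1 δs)).symm
      have hn : α (f ((δ1 :: δs).getLast (List.cons_ne_nil _ _))) ≠
          f ((δ1 :: δs).getLast (List.cons_ne_nil _ _)) := by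
        intro hh
        exact hnl _ hmem ((nl_f hf hpt _).1 hh)
      rw [← rep_eq (hl.zro _ _ ha hn ha0 h0), hra]
    · have := ins_cyc H K hsz
      simp only at this ⊢
      omega
    · obtain ⟨ℓ', hI⟩ := ins_item H
      exact ⟨ℓ', c0, bs, _, _, _, _, hI⟩

private theorem itm_inj {f : Perm D} (r : ℕ) (x y : (Perm D × List D × D × D) × Tr)
    (w : (_ : Perm D) × (D × Tr)) (hx : itm_R f r x w) (hy : itm_R f r y w) : x = y := by
  obtain ⟨⟨α1, bs1, a1, δ1⟩, T1⟩ := x
  obtain ⟨⟨α2, bs2, a2, δ1'⟩, T2⟩ := y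
  obtain ⟨ℓ, e, c0, bs, δs, h1, H, h3, h4⟩ := hx
  obtain ⟨ℓ', e', c0', bs', δs', h1', H', h3', h4'⟩ := hy
  simp only at h1 H h3 h4 h1' H' h3' h4'
  rw [h4] at h4'
  injection h4' with h5 h6
  simp only [Prod.mk.injEq] at h6
  obtain ⟨h6, h7⟩ := h6
  subst h6 h7
  obtain ⟨g1, g2, g3, g4, g5⟩ := ins_inj H H' h5
  subst g1 g2 g3 g4 g5
  have h8 : a1 = a2 := h3.trans h3'.symm
  rw [h1, h1', h8]

theorem itm {f : Perm D} (hf : TF f) (v r K : ℕ) (hr : 1 ≤ r) (F : Finset Tr)
    (hF : ∀ T ∈ F, Adm r K T) :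
    (Xd f v r K).ncard * F.card ≤ (TS f v).ncard * (Fintype.card D * (12 * K + 1)) := by
  classical
  have _ := hr
  rcases (Xd f v r K).finite_or_infinite with hXf | hXi
  swap
  · rw [Set.Infinite.ncard hXi, zero_mul]
    exact Nat.zero_le _
  have hTf : (TS f v).Finite := Set.toFinite _
  let IT : Perm D → Set (D × Tr) := fun α =>
    {q : D × Tr | Adm r K q.2 ∧ ∃ (ℓ : D → ℤ) (c : D) (bs : List D) (lv : List (D × Bool))
      (pr : List (D × D)) (As Bs : List D), Item f α ℓ r q.1 c q.2 bs lv pr As Bs}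
  have hITf : ∀ α ∈ TS f v, (IT α).Finite ∧ (IT α).ncard ≤ Fintype.card D * (12 * K + 1) :=
    fun α hα => items_count hf hα.1 r K
  let ITf : Perm D → Finset (D × Tr) := fun α => if h : (IT α).Finite then h.toFinset else ∅
  have hmem : ∀ α ∈ TS f v, ∀ q, q ∈ ITf α ↔ q ∈ IT α := by
    intro α hα q
    have h := (hITf α hα).1
    simp only [ITf, dif_pos h, Set.Finite.mem_toFinset]
  have hcard : ∀ α ∈ TS f v, (ITf α).card ≤ Fintype.card D * (12 * K + 1) := by
    intro α hα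
    have h := (hITf α hα).1
    have h2 := (hITf α hα).2
    rw [Set.ncard_eq_toFinset_card _ h] at h2
    simpa only [ITf, dif_pos h] using h2
  have key : (hXf.toFinset ×ˢ F).card ≤ (hTf.toFinset.sigma ITf).card := by
    apply Finset.card_le_card_of_forall_subsingleton (itm_R f r)
    · rintro ⟨c, T⟩ hcT
      simp only [Finset.mem_product, Set.Finite.mem_toFinset] at hcT
      obtain ⟨w, h1, h2, h3⟩ := itm_data hf v r K c hcT.1 T (hF T hcT.2)
      refine ⟨w, ?_, h1⟩
      simp only [Finset.mem_sigma, Set.Finite.mem_toFinset]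
      exact ⟨h2, (hmem w.1 h2 w.2).2 h3⟩
    · intro w _ x hx y hy
      exact itm_inj r x y w hx.2 hy.2
  rw [Finset.card_product, Finset.card_sigma] at key
  rw [Set.ncard_eq_toFinset_card _ hXf, Set.ncard_eq_toFinset_card _ hTf]
  refine key.trans ?_
  have := Finset.sum_le_card_nsmul hTf.toFinset (fun α => (ITf α).card)
    (Fintype.card D * (12 * K + 1)) (by
      intro α hα
      exact hcard α (by simpa using hα))
  simpa using this

end QF39
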